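import Mathlib

/-!
Brickwork automata: the gate `U` acts on neighbouring sites; at half-step `h` on the pairs
`(j, j+1)` with `j` congruent to `h` mod 2.
-/

set_option autoImplicit false

namespace Pool.Agent.TH195.SP

variable {A : Type}

/-- half-step number `h` -/
def hs (U : A × A → A × A) (h : ℕ) (c : ℤ → A) : ℤ → A := fun j =>
  if (j - h) % 2 = 0 then (U (c j, c (j + 1))).1 else (U (c (j - 1), c j)).2

/-- the orbit, half-step by half-step -/
def orb (U : A × A → A × A) (c : ℤ → A) : ℕ → ℤ → A
  | 0 => c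
  | h + 1 => hs U h (orb U c h)

/-- the right-going symbols met by row `y` -/
def xs (U : A × A → A × A) (o : A) (y : ℕ → A) : ℕ → A
  | 0 => o
  | t + 1 => (U (xs U o y t, y t)).2

/-- next row -/
def nxt (U : A × A → A × A) (o : A) (y : ℕ → A) : ℕ → A := fun t => (U (xs U o y t, y t)).1

/-- all rows -/
def rows (U : A × A → A × A) (o : A) (y : ℕ → A) : ℕ → ℕ → A
  | 0 => y
  | n + 1 => nxt U o (rows U o y n)

/-- the part of the line to the right of the wall: gates on the pairs `(0,1), (2,3), ...` -/
def Ev (U : A × A → A × A) (R : ℕ → A) : ℕ → A := fun i =>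
  if i % 2 = 0 then (U (R i, R (i + 1))).1 else (U (R (i - 1), R i)).2

/-- gates on the pairs `(1,2), (3,4), ...`; entry `0` is fixed -/
def Od (U : A × A → A × A) (R : ℕ → A) : ℕ → A := fun i =>
  if i = 0 then R 0 else if i % 2 = 1 then (U (R i, R (i + 1))).1 else (U (R (i - 1), R i)).2

/-- put `z` in front -/
def cns (z : A) (R : ℕ → A) : ℕ → A
  | 0 => z
  | i + 1 => R i

/-- one block: five half-steps and one insertion -/
def blk (U : A × A → A × A) (z : A) (R : ℕ → A) : ℕ → A :=
  cns z (Ev U (Od U (Ev U (Od U (Ev U R)))))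

/-- a list of blocks, first element first -/
def blks (U : A × A → A × A) : List A → (ℕ → A) → (ℕ → A)
  | [], R => R
  | z :: zs, R => blks U zs (blk U z R)

/-! ### The alphabet -/

/-- digits -/
abbrev Dig := Fin 16

/-- the ambient alphabet: all triples of digits -/
abbrev AA := Dig × Dig × Dig

/-- contents of a site: empty, left end, digit, right end -/
inductive Con
  | V | S | T (d : Dig) | E
  deriving DecidableEq, Fintype

/-- signals going right -/
inductive Sig
  | no | dat (d : Dig) | s | tog
  deriving DecidableEq, Fintype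

/-- flags of the signal going left -/
inductive Fl
  | dt (b : Bool) | sh
  deriving DecidableEq, Fintype

/-- garbage -/
inductive Garb
  | no | star (i : Bool) | tg | dg (a : Dig)
  deriving DecidableEq, Fintype

/-- cells -/
inductive Cell
  | con (c : Con) | la (c : Con) (f : Fl) | y (i : Fin 8)
  deriving DecidableEq, Fintype

/-- passengers -/
inductive Ps
  | pas (c : Con) (r : Sig) | rr (f : Bool)
  deriving DecidableEq, Fintype

/-- states of the wall -/
inductive Wall
  | V0 | V1 (a : Dig) | V2 (a b : Dig) | Nw (i : Bool) | S0 | Sh | U2 (b c : Dig) | U1 (c : Dig)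
  deriving DecidableEq, Fintype

/-- all special symbols -/
inductive Spec
  | cell (c : Cell) (g : Garb) | ps (p : Ps) | wl (w : Wall) | kap (i : Bool)
  deriving DecidableEq, Fintype

open Con Sig Fl Cell Ps Wall Spec

/-- what the left-going signal `f` does to digit `d` -/
def dl : Fl → Dig → Dig × Fl × Sig
  | dt b, d => if b then (d + 1, dt (decide (d = 15)), dat d) else (d, dt false, dat d)
  | sh, d => (d, sh, Sig.s)

/-- phase of the left end after the pass of signal `f` -/
def eta : Fl → Fin 8
  | dt b => if b then 6 else 0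
  | sh => 7

/-- the gate on machine symbols: passenger, cell, new cell, new passenger -/
inductive BR : Ps → Cell → Cell → Ps → Prop
  | hop (c : Con) (r : Sig) (c' : Con) : BR (pas c r) (con c') (con c) (pas c' r)
  | las (d : Dig) (f : Fl) (c' : Con) :
      BR (pas (T d) Sig.no) (la c' f) (la (T (dl f d).1) (dl f d).2.1) (pas c' (dl f d).2.2)
  | lend (f : Fl) (c' : Con) : BR (pas S Sig.no) (la c' f) (y (eta f)) (pas c' Sig.no)
  | yi (i j : Fin 8) (h : (j : ℕ) = i + 1) (h6 : (i : ℕ) < 6) :
      BR (pas V Sig.no) (y j) (y i)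
        (pas (T (if (i : ℕ) = 5 then 1 else 0)) (if (i : ℕ) < 3 then dat 0 else Sig.no))
  | yend (b : Bool) : BR (pas V Sig.no) (y (if b then 7 else 0)) (con S) (rr b)
  | rrT (b : Bool) (d : Dig) : BR (rr b) (con (T d)) (con (T d)) (rr b)
  | rrE (b : Bool) : BR (rr b) (con E) (la E (if b then dt true else sh)) (pas V tog)

/-- the left gate of the wall: incoming signal, wall; garbage left behind, new wall -/
inductive WR : Sig → Wall → Garb → Wall → Prop
  | v0 : WR Sig.no V0 Garb.no V0
  | s0 : WR Sig.no S0 Garb.no S0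
  | v1 (x : Dig) : WR (dat x) V0 Garb.no (V1 x)
  | v2 (a x : Dig) : WR (dat x) (V1 a) Garb.no (V2 a x)
  | n1 (i : Bool) (x : Dig) : WR (dat x) (Nw i) (Garb.star i) (V1 x)
  | n0 (i : Bool) : WR Sig.no (Nw i) (Garb.star i) V0
  | nt (i : Bool) : WR tog (Nw i) (Garb.star i) S0
  | vt : WR tog V0 Garb.tg S0
  | st : WR tog S0 Garb.tg V0
  | ss : WR Sig.s S0 Garb.no Sh
  | u2 (b c : Dig) : WR Sig.s (U2 b c) (Garb.dg b) (U1 c)
  | u1 (c : Dig) : WR Sig.s (U1 c) (Garb.dg c) S0

/-- wall states which reflect everything on their right -/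
def Stat : Wall → Prop
  | Nw _ => False
  | Sh => False
  | _ => True

/-- the mark of a new wall in front of `z` -/
noncomputable def mk (enc : Spec ↪ AA) (z : AA) : Bool :=
  @decide (z = enc (kap true)) (Classical.propDecidable _)

/-- the partial gate -/
inductive Rule (enc : Spec ↪ AA) : AA → AA → AA → AA → Prop
  | base (x : Ps) (c : Cell) (l : Cell) (r : Ps) (g : Garb) (h : BR x c l r) :
      Rule enc (enc (ps x)) (enc (cell c g)) (enc (cell l g)) (enc (ps r))
  | wall (r : Sig) (w : Wall) (g : Garb) (w' : Wall) (h : WR r w g w') :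
      Rule enc (enc (ps (pas V r))) (enc (wl w)) (enc (cell (con V) g)) (enc (wl w'))
  | grow (a b c : Dig) :
      Rule enc (enc (ps (pas V (dat c)))) (enc (wl (V2 a b))) (enc (wl (Nw (mk enc (a, b, c)))))
        (a, b, c)
  | wr (w : Wall) (z : AA) (h : Stat w) : Rule enc (enc (wl w)) z (enc (wl w)) z
  | sw (a b c : Dig) :
      Rule enc (enc (wl Sh)) (a, b, c) (enc (cell (con V) (Garb.dg a))) (enc (wl (U2 b c)))
  | kk (i j : Bool) : Rule enc (enc (kap i)) (enc (kap j)) (enc (kap j)) (enc (kap i))
  | xk (x : AA) (i : Bool) (h1 : ∀ j, x ≠ enc (kap j)) (h2 : x ≠ enc (wl Sh))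
      (h3 : x ≠ enc (wl (Nw i))) : Rule enc x (enc (kap i)) x (enc (kap i))
  | nk (i : Bool) : Rule enc (enc (wl (Nw i))) (enc (kap i)) (enc (wl Sh)) (enc (kap i))
  | kv (i : Bool) : Rule enc (enc (kap i)) (enc (wl V0)) (enc (kap i)) (enc (wl V0))

end Pool.Agent.TH195.SP
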