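import Pool.Agent.TH195.SP.Basic

set_option autoImplicit false

namespace Pool.Agent.TH195.SP

variable {A : Type}

/-- apply the gate in every cell -/
def gm (U : A × A → A × A) (x : ℤ → A × A) : ℤ → A × A := fun i => U (x i)

/-- regroup: cell `i` becomes `(right half of cell i - 1, left half of cell i)` -/
def tau (x : ℤ → A × A) : ℤ → A × A := fun i => ((x (i - 1)).2, (x i).1)

/-- the inverse of `tau` -/
def sig (x : ℤ → A × A) : ℤ → A × A := fun i => ((x i).2, (x (i + 1)).1)

/-- the automaton -/
def FF (U : A × A → A × A) (x : ℤ → A × A) : ℤ → A × A := sig (gm U (tau (gm U x)))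

/-- two sites per cell -/
def XX (c : ℤ → A) : ℤ → A × A := fun i => (c (2 * i), c (2 * i + 1))

theorem sig_tau (x : ℤ → A × A) : sig (tau x) = x := by
  funext i; simp [sig, tau]

theorem tau_sig (x : ℤ → A × A) : tau (sig x) = x := by
  funext i; simp [sig, tau]

theorem FF_bij (U : Equiv.Perm (A × A)) : Function.Bijective (FF U) := by
  have h1 : Function.Bijective (gm (A := A) U) := by
    refine Function.bijective_iff_has_inverse.mpr ⟨gm U.symm, fun x => ?_, fun x => ?_⟩ <;>
    · funext i; simp [gm]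
  have h2 : Function.Bijective (tau (A := A)) :=
    Function.bijective_iff_has_inverse.mpr ⟨sig, sig_tau, tau_sig⟩
  have h3 : Function.Bijective (sig (A := A)) :=
    Function.bijective_iff_has_inverse.mpr ⟨tau, tau_sig, sig_tau⟩
  exact h3.comp (h1.comp (h2.comp h1))

theorem FF_XX (U : A × A → A × A) (c : ℤ → A) : FF U (XX c) = XX (hs U 1 (hs U 0 c)) := by
  have e0 : gm U (XX c) = XX (hs U 0 c) := by
    funext i
    simp only [gm, XX, hs]
    rw [if_pos (by push_cast; omega), if_neg (by push_cast; omega)]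
    simp
  funext i
  simp only [FF, e0]
  generalize hs U 0 c = d
  simp only [sig, gm, tau, XX, hs]
  rw [if_neg (by push_cast; omega), if_pos (by push_cast; omega)]
  have a1 : 2 * (i - 1) + 1 = 2 * i - 1 := by ring
  have a2 : 2 * (i + 1 - 1) + 1 = 2 * i + 1 := by ring
  have a3 : 2 * (i + 1) = 2 * i + 1 + 1 := by ring
  rw [a1, a2, a3]

theorem FF_orb (U : A × A → A × A) (c : ℤ → A) (m : ℕ) :
    (FF U)^[m] (XX c) = XX (orb U c (2 * m)) := by
  induction m with
  | zero => rfl
  | succ m ih =>
    rw [Function.iterate_succ_apply', ih, FF_XX]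
    congr 1
    show _ = hs U (2 * m + 1) (hs U (2 * m) (orb U c (2 * m)))
    generalize orb U c (2 * m) = d
    have e0 : ∀ d : ℤ → A, hs U (2 * m) d = hs U 0 d := by
      intro d
      funext j
      have : ((j - ((2 * m : ℕ) : ℤ)) % 2 = 0) ↔ ((j - ((0 : ℕ) : ℤ)) % 2 = 0) := by
        push_cast; omega
      simp only [hs, this]
    have e1 : ∀ d : ℤ → A, hs U (2 * m + 1) d = hs U 1 d := by
      intro d
      funext j
      have : ((j - ((2 * m + 1 : ℕ) : ℤ)) % 2 = 0) ↔ ((j - ((1 : ℕ) : ℤ)) % 2 = 0) := by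
        push_cast; omega
      simp only [hs, this]
    rw [e0, e1]

end Pool.Agent.TH195.SP
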