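import Pool.Agent.TH195.SP.Final

set_option autoImplicit false

namespace Pool.Agent.TH195.SP

open Con Sig Fl Cell Ps Wall Spec

theorem hx_gate {enc : Spec ↪ AA} {U : Equiv.Perm (AA × AA)}
    (hU : ∀ x y l r, Rule enc x y l r → U (x, y) = (l, r)) (x : AA) :
    ∃ i j, (U.symm (x, enc (kap i))).2 = enc (kap j) := by
  by_cases h1 : ∃ j, x = enc (kap j)
  · obtain ⟨j, rfl⟩ := h1
    refine ⟨true, j, ?_⟩
    have := hU _ _ _ _ (Rule.kk true j)
    rw [← this, Equiv.symm_apply_apply]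
  · by_cases h2 : x = enc (wl Sh)
    · subst h2
      refine ⟨true, true, ?_⟩
      have := hU _ _ _ _ (Rule.nk true)
      rw [← this, Equiv.symm_apply_apply]
    · have h3 : ∃ i, x ≠ enc (wl (Nw i)) := by
        by_cases h : x = enc (wl (Nw true))
        · refine ⟨false, ?_⟩
          rw [h]
          intro h'
          have := enc.injective h'
          simp at this
        · exact ⟨true, h⟩
      obtain ⟨i, h3⟩ := h3
      refine ⟨i, i, ?_⟩
      have := hU _ _ _ _ (Rule.xk x i (fun j hj => h1 ⟨j, hj⟩) h2 h3)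
      have h4 : U.symm (x, enc (kap i)) = (x, enc (kap i)) := by
        rw [Equiv.symm_apply_eq, this]
      rw [h4]

theorem dense {enc : Spec ↪ AA} {U : Equiv.Perm (AA × AA)}
    (hU : ∀ x y l r, Rule enc x y l r → U (x, y) = (l, r)) (y : ℤ → AA × AA) (N : ℕ) :
    ∃ n, ∀ j : ℤ, -(N : ℤ) ≤ j → j ≤ N → (FF U)^[n] (XX (c0 enc)) j = y j := by
  obtain ⟨M0, hM⟩ := reach U (fun i => enc (kap i)) (enc (wl V0))
    (fun i j => hU _ _ _ _ (Rule.kk i j)) (hx_gate hU) (fun i => hU _ _ _ _ (Rule.kv i))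
    (fun z => hU _ _ _ _ (Rule.wr V0 z trivial)) (4 * N + 2)
    (fun i => if ((i : ℤ) - 2 * N) % 2 = 0 then (y (((i : ℤ) - 2 * N) / 2)).1
      else (y (((i : ℤ) - 2 * N) / 2)).2)
  obtain ⟨zs, hzl, hz⟩ := hM (5 + (max (2 * N + 6) M0) + 2 * N)
    (by have := le_max_right (2 * N + 6) M0; omega)
  obtain ⟨q, R, hq⟩ := display hU zs _ N (le_max_left (2 * N + 6) M0) hzl
  refine ⟨q, fun j h1 h2 => ?_⟩
  rw [FF_orb]
  obtain ⟨k, hk⟩ : ∃ k : ℕ, (k : ℤ) = j + N := ⟨(j + N).toNat, by omega⟩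
  have a1 := hq (2 * k)
  rw [hz R (2 * k) (by omega)] at a1
  have a2 := hq (2 * k + 1)
  rw [hz R (2 * k + 1) (by omega)] at a2
  rw [if_pos (by push_cast; omega)] at a1
  rw [if_neg (by push_cast; omega)] at a2
  have e1 : -2 * (N : ℤ) + ((2 * k : ℕ) : ℤ) = 2 * j := by push_cast; linarith
  have e2 : -2 * (N : ℤ) + ((2 * k + 1 : ℕ) : ℤ) = 2 * j + 1 := by push_cast; linarith
  have e3 : ((2 * k : ℕ) : ℤ) - 2 * N = 2 * j := by push_cast; linarith
  have e4 : ((2 * k + 1 : ℕ) : ℤ) - 2 * N = 2 * j + 1 := by push_cast; linarith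
  rw [e1, e3] at a1
  rw [e2, e4] at a2
  simp only [XX, a1, a2]
  rw [show 2 * j / 2 = j by omega, show (2 * j + 1) / 2 = j by omega]

theorem finite_c0 (enc : Spec ↪ AA) :
    {i : ℤ | XX (c0 enc) i ≠ (p0 enc, v0 enc)}.Finite := by
  refine (Set.finite_Icc (0 : ℤ) 2).subset ?_
  intro i hi
  by_contra h
  apply hi
  simp only [Set.mem_Icc, not_and_or, not_le] at h
  unfold XX c0
  rw [if_neg (by omega), if_neg (by omega), if_neg (by omega), if_pos (by omega),
    if_neg (by omega), if_neg (by omega), if_neg (by omega), if_neg (by omega)]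

theorem FF_zero {enc : Spec ↪ AA} {U : Equiv.Perm (AA × AA)}
    (hU : ∀ x y l r, Rule enc x y l r → U (x, y) = (l, r)) :
    FF U (fun _ => (p0 enc, v0 enc)) = fun _ => (p0 enc, v0 enc) := by
  have h : U (p0 enc, v0 enc) = (v0 enc, p0 enc) :=
    hU _ _ _ _ (Rule.base _ _ _ _ _ (BR.hop V Sig.no V))
  funext i
  simp [FF, sig, gm, tau, h]

end Pool.Agent.TH195.SP
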