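import Pool.Agent.TH195.SP.Basic

/-!
The odometer with growing length reaches every word (job ENUM for helper195, by helper702).
-/

set_option autoImplicit false

namespace Pool.Agent.TH195.SP

/-- add the carry `b` to a number written with the lowest digit first; new digits and carry out -/
def incD : Bool → List Dig → List Dig × Bool
  | b, [] => ([], b)
  | b, d :: ds => ((if b then d + 1 else d) :: (incD (b && decide (d = 15)) ds).1,
      (incD (b && decide (d = 15)) ds).2)

/-- next number; at an overflow six digits are appended -/
def nextD (ds : List Dig) : List Dig :=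
  if (incD true ds).2 then (incD true ds).1 ++ [1, 0, 0, 0, 0, 0] else (incD true ds).1

namespace EnumAux

/-- the value of a list of digits -/
def val : List Dig → ℕ
  | [] => 0
  | d :: ds => d.val + 16 * val ds

lemma val_append (a b : List Dig) : val (a ++ b) = val a + 16 ^ a.length * val b := by
  induction a with
  | nil => simp [val]
  | cons d ds ih =>
    simp only [List.cons_append, val, ih, List.length_cons, pow_succ]
    ring

lemma val_lt (a : List Dig) : val a < 16 ^ a.length := by
  induction a with
  | nil => simp [val]
  | cons d ds ih =>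
    have hd := d.isLt
    simp only [val, List.length_cons, pow_succ]
    omega

lemma val_inj : ∀ a b : List Dig, a.length = b.length → val a = val b → a = b
  | [], [], _, _ => rfl
  | [], _ :: _, h, _ => by simp at h
  | _ :: _, [], h, _ => by simp at h
  | c :: cs, d :: ds, h, hv => by
    simp only [List.length_cons, Nat.add_right_cancel_iff] at h
    simp only [val] at hv
    have hc := c.isLt
    have hd := d.isLt
    have h1 : val cs = val ds := by omega
    have h2 : c.val = d.val := by omega
    rw [val_inj cs ds h h1, Fin.ext h2]

lemma incD_len (b : Bool) (a : List Dig) : (incD b a).1.length = a.length := by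
  induction a generalizing b with
  | nil => rfl
  | cons d ds ih => simp only [incD, List.length_cons, ih]

lemma incD_digit : ∀ (b : Bool) (d : Dig), ((if b then d + 1 else d : Dig) : ℕ) +
    16 * (if (b && decide (d = 15)) then 1 else 0) = d.val + (if b then 1 else 0) := by
  decide

lemma incD_val (b : Bool) (a : List Dig) :
    val (incD b a).1 + 16 ^ a.length * (if (incD b a).2 then 1 else 0) =
      val a + (if b then 1 else 0) := by
  induction a generalizing b with
  | nil => cases b <;> simp [incD, val]
  | cons d ds ih =>
    have h := ih (b && decide (d = 15))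
    have hd := incD_digit b d
    have h5 : val (incD b (d :: ds)).1 = ((if b then d + 1 else d : Dig) : ℕ) +
        16 * val (incD (b && decide (d = 15)) ds).1 := rfl
    have h6 : (incD b (d :: ds)).2 = (incD (b && decide (d = 15)) ds).2 := rfl
    rw [h5, h6, List.length_cons, pow_succ]
    show _ = d.val + 16 * val ds + _
    generalize (if (b && decide (d = 15)) then 1 else 0) = c at h hd
    generalize (if (incD (b && decide (d = 15)) ds).2 then 1 else 0) = e at h ⊢
    have e1 : 16 ^ ds.length * 16 * e = 16 * (16 ^ ds.length * e) := by ring
    rw [e1]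
    generalize 16 ^ ds.length * e = f at h ⊢
    omega

lemma step {a b : List Dig} (hl : a.length = b.length) (h : val a < val b) :
    (nextD a).length = a.length ∧ val (nextD a) = val a + 1 := by
  have h1 := incD_val true a
  have h2 := val_lt b
  rw [← hl] at h2
  have h3 : (incD true a).2 = false := by
    by_contra hc
    rw [Bool.not_eq_false] at hc
    rw [hc] at h1
    simp only [if_true, mul_one] at h1
    omega
  unfold nextD
  rw [h3] at h1 ⊢
  simp only [Bool.false_eq_true, if_false, mul_zero, add_zero, if_true] at h1 ⊢
  exact ⟨incD_len true a, h1⟩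

lemma reach (n : ℕ) : ∀ a b : List Dig, a.length = b.length → val a + n = val b →
    nextD^[n] a = b := by
  induction n with
  | zero =>
    intro a b hl hv
    exact val_inj a b hl (by omega)
  | succ n ih =>
    intro a b hl hv
    obtain ⟨h1, h2⟩ := step hl (by omega : val a < val b)
    rw [Function.iterate_succ_apply]
    exact ih _ _ (h1.trans hl) (by omega)

lemma val_zero (k : ℕ) : val (List.replicate k (0 : Dig)) = 0 := by
  induction k with
  | zero => rfl
  | succ k ih => simp only [List.replicate_succ, val, ih]; rfl

lemma inc_full (k : ℕ) : incD true (List.replicate k (15 : Dig)) = (List.replicate k 0, true) := by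
  induction k with
  | zero => rfl
  | succ k ih =>
    simp only [List.replicate_succ, incD, decide_true, Bool.and_true, ih, if_true]
    rfl

lemma next_full (k : ℕ) :
    nextD (List.replicate k (15 : Dig)) = List.replicate k 0 ++ [1, 0, 0, 0, 0, 0] := by
  unfold nextD
  rw [inc_full]
  simp

lemma val_full (k : ℕ) : val (List.replicate k (15 : Dig)) + 1 = 16 ^ k := by
  have h := incD_val true (List.replicate k (15 : Dig))
  rw [inc_full] at h
  simp only [val_zero, if_true, mul_one, List.length_replicate, zero_add] at h
  exact h.symm

lemma val_one (k : ℕ) : val (List.replicate k (0 : Dig) ++ [1, 0, 0, 0, 0, 0]) = 16 ^ k := by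
  rw [val_append, val_zero, List.length_replicate]
  have : val [1, 0, 0, 0, 0, 0] = 1 := rfl
  rw [this]; ring

lemma base (l : ℕ) : ∃ j, nextD^[j] [] = List.replicate (6 * l) (0 : Dig) ++ [1, 0, 0, 0, 0, 0] := by
  induction l with
  | zero => exact ⟨1, rfl⟩
  | succ l ih =>
    obtain ⟨j, hj⟩ := ih
    have hv := val_one (6 * l)
    have hf := val_full (6 * l + 6)
    have hle : 16 ^ (6 * l) < 16 ^ (6 * l + 6) := Nat.pow_lt_pow_right (by norm_num) (by omega)
    have h1 := reach (val (List.replicate (6 * l + 6) (15 : Dig)) -
        val (List.replicate (6 * l) (0 : Dig) ++ [1, 0, 0, 0, 0, 0]))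
      (List.replicate (6 * l) (0 : Dig) ++ [1, 0, 0, 0, 0, 0])
      (List.replicate (6 * l + 6) (15 : Dig)) (by simp) (by omega)
    refine ⟨1 + ((val (List.replicate (6 * l + 6) (15 : Dig)) -
        val (List.replicate (6 * l) (0 : Dig) ++ [1, 0, 0, 0, 0, 0])) + j), ?_⟩
    rw [Function.iterate_add_apply, Function.iterate_add_apply, hj, h1, Function.iterate_one,
      next_full]
    rfl

end EnumAux

open EnumAux

theorem enumD (l : ℕ) (ws : List Dig) (h : ws.length ≤ 6 * l + 5) :
    ∃ j, nextD^[j] [] = ws ++ List.replicate (6 * l + 5 - ws.length) 0 ++ [1] := by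
  obtain ⟨j, hj⟩ := base l
  have hlen : (ws ++ List.replicate (6 * l + 5 - ws.length) (0 : Dig)).length = 6 * l + 5 := by
    rw [List.length_append, List.length_replicate]
    omega
  have hv : 16 ^ (6 * l + 5) ≤
      val (ws ++ List.replicate (6 * l + 5 - ws.length) (0 : Dig) ++ [1]) := by
    rw [val_append, hlen]
    have : val [1] = 1 := rfl
    rw [this]
    omega
  have hle : 16 ^ (6 * l) ≤ 16 ^ (6 * l + 5) := Nat.pow_le_pow_right (by norm_num) (by omega)
  have h1 := val_one (6 * l)
  have h2 := reach (val (ws ++ List.replicate (6 * l + 5 - ws.length) (0 : Dig) ++ [1]) -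
      val (List.replicate (6 * l) (0 : Dig) ++ [1, 0, 0, 0, 0, 0]))
    (List.replicate (6 * l) (0 : Dig) ++ [1, 0, 0, 0, 0, 0])
    (ws ++ List.replicate (6 * l + 5 - ws.length) (0 : Dig) ++ [1])
    (by rw [List.length_append, List.length_append (bs := [1]), hlen]; simp) (by omega)
  exact ⟨_ + j, by rw [Function.iterate_add_apply, hj, h2]⟩

end Pool.Agent.TH195.SP
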