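import Pool.Agent.TH195.SP.Basic

set_option autoImplicit false

namespace Pool.Agent.TH195.SP

variable {A : Type}

/-- space-time diagram in terms of rows -/
theorem fields (U : A × A → A × A) (p0 v0 : A) (h0 : U (p0, v0) = (v0, p0)) (c : ℤ → A)
    (hc : ∀ j : ℤ, j ≤ 0 → c j = if j % 2 = 0 then p0 else v0) :
    ∀ h : ℕ, (∀ n t : ℕ, n + t = h →
        orb U c h ((t : ℤ) - n) = xs U p0 (rows U p0 (fun t => orb U c t (t + 1)) n) t ∧
        orb U c h ((t : ℤ) - n + 1) = rows U p0 (fun t => orb U c t (t + 1)) n t) ∧
      (∀ j : ℤ, j < -(h : ℤ) → orb U c h j = if (j - h) % 2 = 0 then p0 else v0) := by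
  intro h
  induction h with
  | zero =>
    refine ⟨?_, ?_⟩
    · intro n t hnt
      obtain ⟨rfl, rfl⟩ : n = 0 ∧ t = 0 := by omega
      simp only [orb, xs, rows]
      refine ⟨?_, ?_⟩
      · have := hc 0 (by norm_num)
        simpa using this
      · simp
    · intro j hj
      simp only [orb]
      rw [hc j (by push_cast at hj; omega)]
      simp
  | succ h ih =>
    obtain ⟨ih1, ih2⟩ := ih
    refine ⟨?_, ?_⟩
    · intro n t hnt
      constructor
      · -- left element
        rcases t with _ | t
        · obtain rfl : n = h + 1 := by omega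
          simp only [orb, hs]
          rw [if_neg (by push_cast; omega), ih2 _ (by push_cast; omega)]
          have h2 := (ih1 h 0 (by omega)).1
          by_cases hh : (((0 : ℕ) : ℤ) - ((h + 1 : ℕ) : ℤ)) < -(h : ℤ)
          · rw [ih2 _ hh, if_pos (by push_cast; omega), if_neg (by push_cast; omega), h0]
            rfl
          · exfalso; push_cast at hh; omega
        · simp only [orb, hs]
          rw [if_neg (by push_cast; omega)]
          have h1 := ih1 n t (by omega)
          have e1 : (((t + 1 : ℕ) : ℤ) - n - 1) = (t : ℤ) - n := by push_cast; ring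
          have e2 : (((t + 1 : ℕ) : ℤ) - n) = (t : ℤ) - n + 1 := by push_cast; ring
          rw [e1, e2, h1.1, h1.2]
          rfl
      · rcases n with _ | n
        · obtain rfl : t = h + 1 := by omega
          simp [rows]
        · simp only [orb, hs]
          rw [if_pos (by push_cast; omega)]
          have h1 := ih1 n t (by omega)
          have e1 : ((t : ℤ) - ((n + 1 : ℕ) : ℤ) + 1) = (t : ℤ) - n := by push_cast; ring
          rw [e1, h1.1, h1.2]
          rfl
    · intro j hj
      simp only [orb, hs]
      have hj' : j < -(h : ℤ) := by push_cast at hj; omega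
      have hP : ∀ j : ℤ, j < -(h : ℤ) → (j - h) % 2 = 0 → orb U c h j = p0 := by
        intro j hj hp; rw [ih2 _ hj, if_pos hp]
      have hV : ∀ j : ℤ, j < -(h : ℤ) → ¬ (j - h) % 2 = 0 → orb U c h j = v0 := by
        intro j hj hp; rw [ih2 _ hj, if_neg hp]
      split
      · next hp =>
        rw [hP j hj' hp, hV (j + 1) (by push_cast at hj; omega) (by omega), h0,
          if_neg (by push_cast; omega)]
      · next hp =>
        rw [hP (j - 1) (by omega) (by omega), hV j hj' hp, h0, if_pos (by push_cast; omega)]

end Pool.Agent.TH195.SP
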