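import Pool.Agent.TH195.SP.Basic

set_option autoImplicit false

namespace Pool.Agent.TH195.SP

open Con Sig Fl Cell Ps Wall Spec

theorem card_spec : Fintype.card Spec ≤ Fintype.card AA := by
  decide +kernel

namespace GateX

theorem a1 : ∀ (b : Bool) (i : Fin 8), ((if b = true then (7 : Fin 8) else 0 : Fin 8) : ℕ) = i + 1 →
    (i : ℕ) < 6 → False := by decide

theorem a2 : ∀ (b b' : Bool), (if b = true then (7 : Fin 8) else 0) =
    (if b' = true then (7 : Fin 8) else 0) → b = b' := by decide

theorem dl_inj : ∀ (d d' : Dig) (f f' : Fl), (dl f d).1 = (dl f' d').1 →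
    (dl f d).2.1 = (dl f' d').2.1 → (dl f d).2.2 = (dl f' d').2.2 → d = d' ∧ f = f' := by
  decide +kernel

theorem eta_inj : ∀ (f f' : Fl), eta f = eta f' → f = f' := by decide

theorem eta_ne : ∀ (f : Fl) (i : Fin 8), eta f = i → (i : ℕ) < 6 → 3 ≤ (i : ℕ) → False := by decide

theorem a3 : ∀ (b b' : Bool), (if b = true then dt true else sh) =
    (if b' = true then dt true else sh) → b = b' := by decide

theorem BR_fun {x c l r x' c' l' r'} (h1 : BR x c l r) (h2 : BR x' c' l' r')
    (hx : x = x') (hc : c = c') : l = l' ∧ r = r' := by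
  cases h1 <;> cases h2 <;> simp_all
  · apply Fin.ext; omega
  · exact a1 _ _ (by assumption) (by assumption)
  · subst hc
    exact a1 _ _ (by assumption) (by assumption)
  · rename_i b b'
    exact a2 _ _ hc

theorem BR_inj {x c l r x' c' l' r'} (h1 : BR x c l r) (h2 : BR x' c' l' r')
    (hx : l = l') (hc : r = r') : x = x' ∧ c = c' := by
  cases h1 <;> cases h2 <;> simp_all
  · exact dl_inj _ _ _ _ hx.1 hx.2 hc.2
  · exact eta_inj _ _ hx
  · exact eta_ne _ _ hx (by assumption) hc.2
  · exact eta_ne _ _ hx.symm (by subst hx; assumption) (by rw [hx]; exact hc.2)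
  · apply Fin.ext; omega
  · exact a3 _ _ hx

theorem WR_fun {r w g w' r1 w1 g1 w1'} (h1 : WR r w g w') (h2 : WR r1 w1 g1 w1')
    (hx : r = r1) (hc : w = w1) : g = g1 ∧ w' = w1' := by
  cases h1 <;> cases h2 <;> simp_all

theorem WR_inj {r w g w' r1 w1 g1 w1'} (h1 : WR r w g w') (h2 : WR r1 w1 g1 w1')
    (hx : g = g1) (hc : w' = w1') : r = r1 ∧ w = w1 := by
  cases h1 <;> cases h2 <;> simp_all

theorem mk_kap (enc : Spec ↪ AA) (i : Bool) : mk enc (enc (kap i)) = i := by
  unfold mk
  cases i <;> simp

theorem statN (i : Bool) : Stat (Nw i) = False := rfl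
theorem statS : Stat Sh = False := rfl

theorem WR_V2 {r a b g w'} (h : WR r (V2 a b) g w') : False := by cases h

theorem WR_U2 {r w g b c} (h : WR r w g (U2 b c)) : False := by cases h

theorem kap_aux {enc : Spec ↪ AA} {x : AA} {i : Bool}
    (h : ¬ x = enc (kap false) ∧ ¬ x = enc (kap true)) (hx : enc (kap i) = x) : False := by
  cases i
  · exact h.1 hx.symm
  · exact h.2 hx.symm

theorem Rule_fun {enc : Spec ↪ AA} {x y l r x' y' l' r' : AA} (h1 : Rule enc x y l r)
    (h2 : Rule enc x' y' l' r') (hx : x = x') (hy : y = y') : l = l' ∧ r = r' := by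
  cases h1 <;> cases h2 <;> simp_all [statN, statS]
  · exact BR_fun (by assumption) (by assumption) rfl rfl
  · exact WR_fun (by assumption) (by assumption) rfl rfl
  · exact WR_V2 (by assumption)
  · subst hy; exact WR_V2 (by assumption)
  · subst hx; assumption
  · exact (kap_aux (by assumption) hx).elim
  · subst hx; exact absurd (by assumption) (by simp [statN] : ¬ Stat (Nw _))

theorem Rule_inj {enc : Spec ↪ AA} {x y l r x' y' l' r' : AA} (h1 : Rule enc x y l r)
    (h2 : Rule enc x' y' l' r') (hx : l = l') (hy : r = r') : x = x' ∧ y = y' := by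
  cases h1 <;> cases h2 <;> simp_all [statN, statS]
  · exact BR_inj (by assumption) (by assumption) rfl rfl
  · exact WR_inj (by assumption) (by assumption) rfl rfl
  · exact WR_U2 (by assumption)
  · subst hx; exact absurd (by assumption) (by simp [statN] : ¬ Stat (Nw _))
  · rw [mk_kap] at hx
    exact absurd hx.symm (by assumption)
  · subst hy; exact WR_U2 (by assumption)
  · exact (kap_aux (by assumption) hx).elim
  · rename_i h
    apply h
    rw [← hy, mk_kap]
  · subst hx; exact absurd (by assumption) (by simp [statS] : ¬ Stat Sh)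

/-- a functional and injective relation on a finite type extends to a permutation -/
theorem extend {T : Type} [Fintype T] [DecidableEq T] (R : T → T → Prop)
    (hf : ∀ a b b', R a b → R a b' → b = b') (hi : ∀ a a' b, R a b → R a' b → a = a') :
    ∃ U : Equiv.Perm T, ∀ a b, R a b → U a = b := by
  classical
  let p : T → Prop := fun a => ∃ b, R a b
  let q : T → Prop := fun b => ∃ a, R a b
  let f : {a // p a} → {b // q b} := fun a => ⟨a.2.choose, ⟨a.1, a.2.choose_spec⟩⟩
  have hbij : Function.Bijective f := by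
    constructor
    · intro a a' h
      have h1 : a.2.choose = a'.2.choose := congrArg Subtype.val h
      apply Subtype.ext
      have h2 := a.2.choose_spec
      rw [h1] at h2
      exact hi _ _ _ h2 a'.2.choose_spec
    · rintro ⟨b, a, hab⟩
      refine ⟨⟨a, b, hab⟩, ?_⟩
      apply Subtype.ext
      exact hf _ _ _ (Exists.choose_spec (⟨b, hab⟩ : p a)) hab
  let e : {a // p a} ≃ {b // q b} := Equiv.ofBijective f hbij
  refine ⟨e.extendSubtype, ?_⟩
  intro a b hab
  have ha : p a := ⟨b, hab⟩
  rw [Equiv.extendSubtype_apply_of_mem e a ha]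
  exact hf _ _ _ ha.choose_spec hab

end GateX

open GateX in
theorem exists_gate : ∃ (enc : Spec ↪ AA) (U : Equiv.Perm (AA × AA)),
    ∀ x y l r, Rule enc x y l r → U (x, y) = (l, r) := by
  obtain ⟨enc⟩ := Function.Embedding.nonempty_of_card_le card_spec
  obtain ⟨U, hU⟩ := extend (T := AA × AA) (fun a b => Rule enc a.1 a.2 b.1 b.2)
    (fun a b b' h1 h2 => Prod.ext_iff.mpr (Rule_fun h1 h2 rfl rfl))
    (fun a a' b h1 h2 => Prod.ext_iff.mpr (Rule_inj h1 h2 rfl rfl))
  exact ⟨enc, U, fun x y l r h => hU (x, y) (l, r) h⟩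

end Pool.Agent.TH195.SP
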