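import Pool.Agent.TH195.SP.Basic

/-!
The backward control lemma for a brickwork automaton (job 1501).
-/

set_option autoImplicit false

namespace Pool.Agent.TH195.SP

namespace Reach

variable {A : Type}

/-- backward half-steps in absolute coordinates -/
def E (U : Equiv.Perm (A × A)) (T : ℕ → A) : ℕ → ℕ → A
  | 0 => T
  | t + 1 => fun j =>
      if j < 1 + t / 5 then E U T t j
      else if (j + t) % 2 = 1 then (U.symm (E U T t j, E U T t (j + 1))).1
      else if 1 + t / 5 < j then (U.symm (E U T t (j - 1), E U T t j)).2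
      else E U T t j

variable (U : Equiv.Perm (A × A))

theorem E_lt (T : ℕ → A) {t j : ℕ} (h : j < 1 + t / 5) : E U T (t + 1) j = E U T t j := by
  simp only [E, h, if_true]

theorem E_left (T : ℕ → A) {t j : ℕ} (h : 1 + t / 5 ≤ j) (h2 : (j + t) % 2 = 1) :
    E U T (t + 1) j = (U.symm (E U T t j, E U T t (j + 1))).1 := by
  simp only [E]
  rw [if_neg (by omega), if_pos h2]

theorem E_right (T : ℕ → A) {t j : ℕ} (h : 1 + t / 5 ≤ j) (h2 : (j + t) % 2 = 1) :
    E U T (t + 1) (j + 1) = (U.symm (E U T t j, E U T t (j + 1))).2 := by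
  simp only [E]
  rw [if_neg (by omega), if_neg (by omega), if_pos (by omega), Nat.add_sub_cancel]

theorem E_eq (T : ℕ → A) {t j : ℕ} (h : j = 1 + t / 5) (h2 : (j + t) % 2 = 0) :
    E U T (t + 1) j = E U T t j := by
  simp only [E]
  rw [if_neg (by omega), if_neg (by omega), if_neg (by omega)]

/-- the forward gate undoes the backward gate -/
theorem E_pair (T : ℕ → A) {t j : ℕ} (h : 1 + t / 5 ≤ j) (h2 : (j + t) % 2 = 1) :
    U (E U T (t + 1) j, E U T (t + 1) (j + 1)) = (E U T t j, E U T t (j + 1)) := by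
  rw [E_left U T h h2, E_right U T h h2]
  simp

/-- light cone -/
theorem cone {T T' : ℕ → A} {q : ℕ} (h : ∀ j, j < q → T j = T' j) :
    ∀ t j, j + t < q → E U T t j = E U T' t j := by
  intro t
  induction t with
  | zero => intro j hj; exact h j (by omega)
  | succ t ih =>
    intro j hj
    simp only [E]
    rw [ih j (by omega), ih (j + 1) (by omega), ih (j - 1) (by omega)]

/-- the gate at the boundary pair is safe at time `t` -/
def Safe (κ : Bool → A) (p : ℕ) (T : ℕ → A) (t : ℕ) : Prop :=
  ∀ q, q + 1 = p → 1 + t / 5 ≤ q → (q + t) % 2 = 1 →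
    ∃ i, (U.symm (E U T t q, E U T t (q + 1))).2 = κ i

/-- the controls are intact at time `t` -/
def Inv (κ : Bool → A) (idle : A) (p g : ℕ) (T : ℕ → A) (t : ℕ) : Prop :=
  (∀ j, p ≤ j → j < g → ∃ i, E U T t j = κ i) ∧ E U T t g = idle

variable {U}
variable {κ : Bool → A} {idle : A}

theorem inv_succ (hκ : ∀ i j, U.symm (κ i, κ j) = (κ j, κ i))
    (hki : ∀ i, U.symm (κ i, idle) = (κ i, idle))
    (hid : ∀ y, U.symm (idle, y) = (idle, y)) {p g : ℕ} (hpg : p < g) {T : ℕ → A} {t : ℕ}
    (hI : Inv U κ idle p g T t) (hS : Safe U κ p T t) : Inv U κ idle p g T (t + 1) := by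
  obtain ⟨h1, h2⟩ := hI
  refine ⟨?_, ?_⟩
  · intro j hpj hjg
    by_cases c1 : j < 1 + t / 5
    · rw [E_lt U T c1]; exact h1 j hpj hjg
    · by_cases c2 : (j + t) % 2 = 1
      · rw [E_left U T (by omega) c2]
        obtain ⟨a, ha⟩ := h1 j hpj hjg
        by_cases c3 : j + 1 < g
        · obtain ⟨b, hb⟩ := h1 (j + 1) (by omega) c3
          rw [ha, hb, hκ]; exact ⟨b, rfl⟩
        · have hg : j + 1 = g := by omega
          rw [hg, ha, h2, hki]; exact ⟨a, rfl⟩
      · by_cases c3 : 1 + t / 5 < j
        · obtain ⟨k, rfl⟩ : ∃ k, j = k + 1 := ⟨j - 1, by omega⟩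
          by_cases c4 : p ≤ k
          · rw [E_right U T (by omega) (by omega)]
            obtain ⟨a, ha⟩ := h1 k c4 (by omega)
            obtain ⟨b, hb⟩ := h1 (k + 1) (by omega) hjg
            rw [ha, hb, hκ]; exact ⟨a, rfl⟩
          · rw [E_right U T (by omega) (by omega)]
            exact hS k (by omega) (by omega) (by omega)
        · rw [E_eq U T (by omega) (by omega)]; exact h1 j hpj hjg
  · by_cases c1 : g < 1 + t / 5
    · rw [E_lt U T c1]; exact h2
    · by_cases c2 : (g + t) % 2 = 1
      · rw [E_left U T (by omega) c2, h2, hid]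
      · by_cases c3 : 1 + t / 5 < g
        · obtain ⟨k, rfl⟩ : ∃ k, g = k + 1 := ⟨g - 1, by omega⟩
          rw [E_right U T (by omega) (by omega)]
          obtain ⟨a, ha⟩ := h1 k (by omega) (by omega)
          rw [ha, h2, hki]
        · rw [E_eq U T (by omega) (by omega)]; exact h2

theorem inv_all (hκ : ∀ i j, U.symm (κ i, κ j) = (κ j, κ i))
    (hki : ∀ i, U.symm (κ i, idle) = (κ i, idle))
    (hid : ∀ y, U.symm (idle, y) = (idle, y)) {p g : ℕ} (hpg : p < g) {T : ℕ → A} {n : ℕ}
    (hI : Inv U κ idle p g T 0) (hS : ∀ t, t < n → Safe U κ p T t) :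
    ∀ t, t ≤ n → Inv U κ idle p g T t := by
  intro t
  induction t with
  | zero => intro _; exact hI
  | succ t ih => intro h; exact inv_succ hκ hki hid hpg (ih (by omega)) (hS t (by omega))

/-- left movers -/
theorem mover (hκ : ∀ i j, U.symm (κ i, κ j) = (κ j, κ i)) {p g : ℕ} {T : ℕ → A} {n : ℕ}
    (hI : ∀ t, t ≤ n → Inv U κ idle p g T t) (hpar : (p + n) % 2 = 0) (hg : p + n < g)
    (hm : 1 + n / 5 < p) :
    ∀ t, t ≤ n → E U T t (p + n - t) = T (p + n) := by
  intro t
  induction t with
  | zero => intro _; rfl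
  | succ t ih =>
    intro h
    have h0 := ih (by omega)
    obtain ⟨k, hk⟩ : ∃ k, p + n - t = k + 1 := ⟨p + n - t - 1, by omega⟩
    have hk' : p + n - (t + 1) = k := by omega
    rw [hk]  at h0
    rw [hk']
    have hm2 : 1 + t / 5 ≤ k := by
      have : t / 5 ≤ n / 5 := Nat.div_le_div_right (by omega)
      omega
    rw [E_left U T hm2 (by omega)]
    obtain ⟨a, ha⟩ := (hI t (by omega)).1 k (by omega) (by omega)
    obtain ⟨b, hb⟩ := (hI t (by omega)).1 (k + 1) (by omega) (by omega)
    rw [ha, hb, hκ, ← h0, hb]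

/-- construction of the target sequence -/
theorem build (hκ : ∀ i j, U.symm (κ i, κ j) = (κ j, κ i))
    (hx : ∀ x, ∃ i j, (U.symm (x, κ i)).2 = κ j)
    (hki : ∀ i, U.symm (κ i, idle) = (κ i, idle))
    (hid : ∀ y, U.symm (idle, y) = (idle, y)) (p : ℕ) (P : ℕ → A) :
    ∀ n, n ≤ 5 * p → ∃ T : ℕ → A, (∀ j, j < p → T j = P j) ∧
      Inv U κ idle p (6 * p + 1) T 0 ∧ ∀ t, t < n → Safe U κ p T t := by
  intro n
  induction n with
  | zero =>
    intro _
    refine ⟨fun j => if j < p then P j else if j < 6 * p + 1 then κ true else idle, ?_, ⟨?_, ?_⟩, ?_⟩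
    · intro j hj; simp [hj]
    · intro j h1 h2
      refine ⟨true, ?_⟩
      change (if j < p then P j else if j < 6 * p + 1 then κ true else idle) = κ true
      rw [if_neg (by omega), if_pos h2]
    · change (if 6 * p + 1 < p then P (6 * p + 1) else if 6 * p + 1 < 6 * p + 1 then κ true
        else idle) = idle
      rw [if_neg (by omega), if_neg (by omega)]
    · intro t ht; omega
  | succ n ih =>
    intro hn
    obtain ⟨T, hP, hI, hS⟩ := ih (by omega)
    by_cases hb : ∃ q, q + 1 = p ∧ 1 + n / 5 ≤ q ∧ (q + n) % 2 = 1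
    · obtain ⟨q, hq, hmq, hpar⟩ := hb
      obtain ⟨i, j, hij⟩ := hx (E U T n q)
      have hcone : ∀ t k, k + t < p + n →
          E U (Function.update T (p + n) (κ i)) t k = E U T t k := by
        intro t k hk
        refine cone U (q := p + n) ?_ t k hk
        intro l hl
        rw [Function.update_of_ne (by omega)]
      have hI' : Inv U κ idle p (6 * p + 1) (Function.update T (p + n) (κ i)) 0 := by
        refine ⟨?_, ?_⟩
        · intro l h1 h2
          change ∃ i_1, Function.update T (p + n) (κ i) l = κ i_1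
          by_cases hl : l = p + n
          · subst hl; rw [Function.update_self]; exact ⟨i, rfl⟩
          · rw [Function.update_of_ne hl]; exact hI.1 l h1 h2
        · change Function.update T (p + n) (κ i) (6 * p + 1) = idle
          rw [Function.update_of_ne (by omega)]; exact hI.2
      have hS' : ∀ t, t < n → Safe U κ p (Function.update T (p + n) (κ i)) t := by
        intro t ht q' h1 h2 h3
        rw [hcone t q' (by omega), hcone t (q' + 1) (by omega)]
        exact hS t ht q' h1 h2 h3
      refine ⟨Function.update T (p + n) (κ i), ?_, hI', ?_⟩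
      · intro l hl
        rw [Function.update_of_ne (by omega)]; exact hP l hl
      · intro t ht
        by_cases htn : t < n
        · exact hS' t htn
        · have : t = n := by omega
          subst this
          intro q' h1 h2 h3
          have hqq : q' = q := by omega
          subst hqq
          have hall := inv_all hκ hki hid (by omega : p < 6 * p + 1) hI' hS'
          have hmv := mover hκ hall (by omega) (by omega) (by omega) t le_rfl
          rw [Nat.add_sub_cancel, Function.update_self] at hmv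
          rw [h1, hmv, hcone t q' (by omega)]
          exact ⟨j, hij⟩
    · refine ⟨T, hP, hI, ?_⟩
      intro t ht
      by_cases htn : t < n
      · exact hS t htn
      · have : t = n := by omega
        subst this
        intro q h1 h2 h3
        exact absurd ⟨q, h1, h2, h3⟩ hb

/-- forward half-step, even offset -/
theorem ev_step (hid : ∀ y, U (idle, y) = (idle, y)) {T : ℕ → A} {g : ℕ}
    (hg : ∀ t, E U T t g = idle) {t m : ℕ} (hm : m = 1 + t / 5) (hpar : (m + t) % 2 = 1)
    {R : ℕ → A} (hR : ∀ u, m + u ≤ g → R u = E U T (t + 1) (m + u)) :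
    ∀ u, m + u ≤ g → Ev U R u = E U T t (m + u) := by
  intro u hu
  unfold Ev
  by_cases c : u % 2 = 0
  · rw [if_pos c]
    by_cases c2 : m + u < g
    · rw [hR u hu, hR (u + 1) (by omega), ← add_assoc, E_pair U T (by omega) (by omega)]
    · have h3 : m + u = g := by omega
      rw [hR u hu, h3, hg, hid, hg]
  · rw [if_neg c]
    obtain ⟨v, rfl⟩ : ∃ v, u = v + 1 := ⟨u - 1, by omega⟩
    rw [Nat.add_sub_cancel, hR v (by omega), hR (v + 1) hu, ← add_assoc,
      E_pair U T (by omega) (by omega)]

/-- forward half-step, odd offset -/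
theorem od_step (hid : ∀ y, U (idle, y) = (idle, y)) {T : ℕ → A} {g : ℕ}
    (hg : ∀ t, E U T t g = idle) {t m : ℕ} (hm : m = 1 + t / 5) (hpar : (m + t) % 2 = 0)
    {R : ℕ → A} (hR : ∀ u, m + u ≤ g → R u = E U T (t + 1) (m + u)) :
    ∀ u, m + u ≤ g → Od U R u = E U T t (m + u) := by
  intro u hu
  unfold Od
  by_cases c0 : u = 0
  · subst c0
    rw [if_pos rfl, hR 0 hu, E_eq U T (by omega) (by omega)]
  rw [if_neg c0]
  by_cases c : u % 2 = 1
  · rw [if_pos c]
    by_cases c2 : m + u < g
    · rw [hR u hu, hR (u + 1) (by omega), ← add_assoc, E_pair U T (by omega) (by omega)]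
    · have h3 : m + u = g := by omega
      rw [hR u hu, h3, hg, hid, hg]
  · rw [if_neg c]
    obtain ⟨v, rfl⟩ : ∃ v, u = v + 1 := ⟨u - 1, by omega⟩
    rw [Nat.add_sub_cancel, hR v (by omega), hR (v + 1) hu, ← add_assoc,
      E_pair U T (by omega) (by omega)]

/-- one block -/
theorem blk_step (hid : ∀ y, U (idle, y) = (idle, y)) {T : ℕ → A} {g : ℕ}
    (hg : ∀ t, E U T t g = idle) (n : ℕ) {R : ℕ → A}
    (hR : ∀ u, n + 1 + u ≤ g → R u = E U T (5 * (n + 1)) (n + 1 + u)) :
    ∀ u, n + u ≤ g → blk U (E U T (5 * n) n) R u = E U T (5 * n) (n + u) := by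
  have e0 : 5 * (n + 1) = 5 * n + 4 + 1 := by ring
  rw [e0] at hR
  have s1 := ev_step hid hg (t := 5 * n + 4) (m := n + 1) (by omega) (by omega) hR
  have s2 := od_step hid hg (t := 5 * n + 3) (m := n + 1) (by omega) (by omega) s1
  have s3 := ev_step hid hg (t := 5 * n + 2) (m := n + 1) (by omega) (by omega) s2
  have s4 := od_step hid hg (t := 5 * n + 1) (m := n + 1) (by omega) (by omega) s3
  have s5 := ev_step hid hg (t := 5 * n) (m := n + 1) (by omega) (by omega) s4
  intro u hu
  cases u with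
  | zero => rfl
  | succ u =>
    change Ev U (Od U (Ev U (Od U (Ev U R)))) u = _
    rw [s5 u (by omega)]
    congr 1
    omega

/-- the last blocks -/
def tl (U : Equiv.Perm (A × A)) (T : ℕ → A) : ℕ → List A
  | 0 => []
  | n + 1 => E U T (5 * n) n :: tl U T n

theorem tl_length (T : ℕ → A) (n : ℕ) : (tl U T n).length = n := by
  induction n with
  | zero => rfl
  | succ n ih => simp [tl, ih]

theorem blks_tl (hid : ∀ y, U (idle, y) = (idle, y)) {T : ℕ → A} {g : ℕ}
    (hg : ∀ t, E U T t g = idle) : ∀ (n : ℕ) (R : ℕ → A),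
    (∀ u, n + u ≤ g → R u = E U T (5 * n) (n + u)) →
    ∀ u, u ≤ g → blks U (tl U T n) R u = T u := by
  intro n
  induction n with
  | zero =>
    intro R hR u hu
    have := hR u (by omega)
    rw [Nat.mul_zero, Nat.zero_add] at this
    exact this
  | succ n ih =>
    intro R hR u hu
    change blks U (tl U T n) (blk U (E U T (5 * n) n) R) u = T u
    exact ih _ (blk_step hid hg n hR) u hu

theorem blks_append (F : A × A → A × A) (l1 l2 : List A) (R : ℕ → A) :
    blks F (l1 ++ l2) R = blks F l2 (blks F l1 R) := by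
  induction l1 generalizing R with
  | nil => rfl
  | cons z l ih => exact ih _

end Reach

theorem reach {A : Type} (U : Equiv.Perm (A × A)) (κ : Bool → A) (idle : A)
    (hκ : ∀ i j, U (κ i, κ j) = (κ j, κ i))
    (hx : ∀ x, ∃ i j, (U.symm (x, κ i)).2 = κ j)
    (hki : ∀ i, U (κ i, idle) = (κ i, idle))
    (hid : ∀ y, U (idle, y) = (idle, y)) (p : ℕ) (P : ℕ → A) :
    ∃ M0, ∀ M, M0 ≤ M → ∃ zs : List A, zs.length = M ∧
      ∀ R : ℕ → A, ∀ i, i < p → blks U zs R i = P i := by
  have hκ' : ∀ i j, U.symm (κ i, κ j) = (κ j, κ i) := by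
    intro i j
    rw [Equiv.symm_apply_eq, hκ]
  have hki' : ∀ i, U.symm (κ i, idle) = (κ i, idle) := by
    intro i
    rw [Equiv.symm_apply_eq, hki]
  have hid' : ∀ y, U.symm (idle, y) = (idle, y) := by
    intro y
    rw [Equiv.symm_apply_eq, hid]
  obtain ⟨T, hP, hI, hS⟩ := Reach.build hκ' hx hki' hid' p P (5 * p) le_rfl
  have hS' : ∀ t, Reach.Safe U κ p T t := by
    intro t
    by_cases ht : t < 5 * p
    · exact hS t ht
    · intro q h1 h2 h3
      omega
  have hg : ∀ t, Reach.E U T t (6 * p + 1) = idle := fun t =>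
    (Reach.inv_all hκ' hki' hid' (by omega : p < 6 * p + 1) (n := t) hI (fun s _ => hS' s)
      t le_rfl).2
  refine ⟨6 * p + 1 + 1, fun M hM =>
    ⟨List.replicate (M - (6 * p + 1 + 1)) idle ++ Reach.tl U T (6 * p + 1 + 1), ?_, ?_⟩⟩
  · rw [List.length_append, List.length_replicate, Reach.tl_length]; omega
  · intro R i hi
    rw [Reach.blks_append, Reach.blks_tl hid hg (6 * p + 1 + 1) _ (by intro u hu; omega) i
      (by omega), hP i hi]

end Pool.Agent.TH195.SP
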