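import Pool.Agent.TH195.SP.Passes
import Pool.Agent.TH195.SP.CA
import Pool.Agent.TH195.SP.Reach
import Pool.Agent.TH195.SP.Gate

set_option autoImplicit false

namespace Pool.Agent.TH195.SP

open Con Sig Fl Cell Ps Wall Spec

/-- the initial configuration -/
def c0 (enc : Spec ↪ AA) : ℤ → AA := fun j =>
  if j = 1 then enc (cell (y 7) Garb.no) else if j = 2 then enc (ps (pas E Sig.no))
  else if j = 4 then enc (wl S0) else if j % 2 = 0 then p0 enc else v0 enc

section

variable {enc : Spec ↪ AA} {U : AA × AA → AA × AA}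
  (hU : ∀ x y l r, Rule enc x y l r → U (x, y) = (l, r))

theorem hc0 : ∀ j : ℤ, j ≤ 0 → c0 enc j = if j % 2 = 0 then p0 enc else v0 enc := by
  intro j hj
  unfold c0
  rw [if_neg (by omega), if_neg (by omega), if_neg (by omega)]

include hU

theorem inv_zero : ∃ R, Inv enc U (c0 enc) 0 (YY 0 7 ([].reverse.map T ++ [E]) 1) (enc (wl S0)) R := by
  have h12 : orb U (c0 enc) 1 2 = enc (cell (con E) Garb.no) := by
    have : U (c0 enc 2, c0 enc 3) = (enc (cell (con E) Garb.no), enc (ps (pas V Sig.no))) := by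
      have := hU _ _ _ _ (Rule.base _ _ _ _ Garb.no (BR.hop E Sig.no V))
      simpa [c0] using this
    simp [orb, hs, this]
  have h13 : orb U (c0 enc) 1 3 = enc (ps (pas V Sig.no)) := by
    have : U (c0 enc 2, c0 enc 3) = (enc (cell (con E) Garb.no), enc (ps (pas V Sig.no))) := by
      have := hU _ _ _ _ (Rule.base _ _ _ _ Garb.no (BR.hop E Sig.no V))
      simpa [c0] using this
    simp [orb, hs, this]
  have h14 : orb U (c0 enc) 1 4 = enc (wl S0) := by
    have := hU _ _ _ _ (Rule.wr S0 (c0 enc 5) trivial)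
    have h4 : c0 enc 4 = enc (wl S0) := by simp [c0]
    simp [orb, hs, h4, this]
  have hS : U (enc (ps (pas V Sig.no)), enc (wl S0)) = (enc (cell (con V) Garb.no), enc (wl S0)) :=
    hU _ _ _ _ (Rule.wall _ _ _ _ WR.s0)
  have h23 : orb U (c0 enc) 2 3 = enc (cell (con V) Garb.no) := by
    show hs U 1 (orb U (c0 enc) 1) 3 = _
    simp [hs, h13, h14, hS]
  have h24 : orb U (c0 enc) 2 4 = enc (wl S0) := by
    show hs U 1 (orb U (c0 enc) 1) 4 = _
    simp [hs, h13, h14, hS]
  have h34 : orb U (c0 enc) 3 4 = enc (wl S0) := by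
    show hs U 2 (orb U (c0 enc) 2) 4 = _
    have := hU _ _ _ _ (Rule.wr S0 (orb U (c0 enc) 2 5) trivial)
    simp [hs, h24, this]
  refine ⟨_, fun _ => Garb.no, ?_, ?_, fun i => rfl⟩
  · intro t k ht
    rcases t with _ | _ | _ | t
    · simp [YY] at ht
      subst ht
      simp [rows, orb, c0]
    · simp [YY] at ht
      subst ht
      simpa [rows] using h12
    · simp [YY] at ht
      subst ht
      simpa [rows] using h23
    · simp [YY] at ht
  · show orb U (c0 enc) 3 ((3 : ℕ) + 1) = _
    simpa using h34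

theorem inv_one : ∃ R, Inv enc U (c0 enc) 1 (LA 0 [] E (dt true) [] 2) (enc (wl V0)) R := by
  obtain ⟨R, h⟩ := inv_zero hU
  have h1 := norm hU hc0 h (run_shift 0 true [] 1) WR.st trivial
  rw [LA_append] at h1
  exact ⟨_, h1⟩

/-- every number is reached -/
theorem reached (j : ℕ) : ∃ n a m k R, (nextD^[j] []).length = 6 * m ∧
    Inv enc U (c0 enc) n (LA a (nextD^[j] []) E (dt true) [] (k + 1 + 2 * m)) (enc (wl V0)) R ∧
    a + (nextD^[j] []).length + (k + 1 + 2 * m) + 2 + 1 = n + (4 + m) := by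
  induction j with
  | zero =>
    obtain ⟨R, h⟩ := inv_one hU
    exact ⟨1, 0, 0, 1, R, rfl, h, rfl⟩
  | succ j ih =>
    obtain ⟨n, a, m, k, R, h1, h2, h3⟩ := ih
    obtain ⟨n', a', m', k', R', h1', h2', h3'⟩ := cycle hU hc0 h1 h2 h3
    rw [Function.iterate_succ_apply']
    exact ⟨n', a', m', k', R', h1', h2', h3'⟩

/-- display of the blocks `zs` -/
theorem display (zs : List AA) (m N : ℕ) (hm : 2 * N + 6 ≤ m) (hz : zs.length = 5 + m + 2 * N) :
    ∃ q R, ∀ i : ℕ, orb U (c0 enc) (2 * q) (-2 * (N : ℤ) + i) = blks U zs R i := by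
  obtain ⟨l, rfl⟩ : ∃ l, m = l + 1 := ⟨m - 1, by omega⟩
  obtain ⟨j, hj⟩ := enumD l (flat zs) (by rw [flat_length]; omega)
  obtain ⟨n, a, m', k, R, h1, h2, h3⟩ := reached hU j
  rw [hj] at h1 h2 h3
  have hm' : m' = l + 1 := by
    rw [List.length_append, List.length_append, List.length_replicate, flat_length] at h1
    simp at h1
    omega
  subst hm'
  rw [List.append_assoc, show k + 1 + 2 * (l + 1) = (k + 1 + 2 * (l + 1) - zs.length) + zs.length by
    omega] at h2
  obtain ⟨w', x', rest', _, hx', hI⟩ := data_blocks hU hc0 zs h2 (Or.inl rfl)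
  obtain ⟨g, _, _, hR⟩ := hI
  rw [LA_length] at hR
  have hrest : rest'.length + 1 = 3 * zs.length + 1 := by
    have := congrArg List.length hx'
    simpa [incD_length, flat_length] using this
  rw [List.length_append, List.length_append, List.length_replicate, flat_length] at h3
  rw [List.length_append, List.length_replicate, flat_length] at hR
  simp only [List.length_singleton] at h3 hR
  refine ⟨n + 14 + 3 * (l + 1) + 5 * N, R, fun i => ?_⟩
  rw [← hR i]
  congr 1
  · omega
  · omega

end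

end Pool.Agent.TH195.SP
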