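import Pool.Agent.TH195.SP.Steps

set_option autoImplicit false

namespace Pool.Agent.TH195.SP

open Con Sig Fl Cell Ps Wall Spec

/-- the signal `f` sits on the content `x`; `us`: digits not yet visited (lowest first),
`rest`: contents on the right of `x`, followed by `c` empty cells -/
def LA (a : ℕ) (us : List Dig) (x : Con) (f : Fl) (rest : List Con) (c : ℕ) : List Cell :=
  (List.replicate a V ++ S :: us.reverse.map T).map con ++
    la x f :: (rest ++ List.replicate c V).map con

/-- the left end is in phase `i` -/
def YY (a : ℕ) (i : Fin 8) (rest : List Con) (c : ℕ) : List Cell :=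
  (List.replicate a V).map con ++ y i :: (rest ++ List.replicate c V).map con

theorem LA_append (a us x f rest c) : LA a us x f rest c ++ [con V] = LA a us x f rest (c + 1) := by
  simp [LA, List.replicate_succ']

theorem LA_append2 (a us x f rest c) :
    LA a us x f rest c ++ [con V, con V] = LA a us x f rest (c + 2) := by
  rw [show ([con V, con V] : List Cell) = [con V] ++ [con V] from rfl, ← List.append_assoc,
    LA_append, LA_append]

theorem YY_append (a i rest c) : YY a i rest c ++ [con V] = YY a i rest (c + 1) := by
  simp [YY, List.replicate_succ']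

theorem LA_length (a us x f rest c) :
    (LA a us x f rest c).length = a + us.length + rest.length + c + 2 := by
  simp [LA]; ring

theorem YY_length (a i rest c) : (YY a i rest c).length = a + rest.length + c + 1 := by
  simp [YY]; ring

theorem run_tail (r : Sig) (x : Con) (rest : List Con) (c : ℕ) :
    Run (pas x r) ((rest ++ List.replicate (c + 1) V).map con)
      ((x :: rest ++ List.replicate c V).map con) (pas V r) :=
  run_hop r _ _ _ _ (by simp [List.replicate_succ'])

theorem run_V (a : ℕ) (cs : List Con) :
    ∀ c' cs', V :: cs = cs' ++ [c'] →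
    Run (pas V Sig.no) ((List.replicate a V ++ cs).map con)
      ((List.replicate a V ++ cs').map con) (pas c' Sig.no) := by
  intro c' cs' h
  refine run_hop _ _ _ _ _ ?_
  rw [List.append_assoc, ← h]
  have : V :: (List.replicate a V ++ cs) = (V :: List.replicate a V) ++ cs := rfl
  rw [this, ← List.replicate_succ, List.replicate_succ']
  simp

theorem run_LA (a : ℕ) (d : Dig) (us : List Dig) (x : Con) (f : Fl) (rest : List Con) (c : ℕ) :
    Run (pas V Sig.no) (LA a (d :: us) x f rest (c + 1))
      (LA (a + 1) us (T (dl f d).1) (dl f d).2.1 (x :: rest) c) (pas V (dl f d).2.2) := by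
  unfold LA
  refine Run.append (y := pas (T d) Sig.no) ?_ ?_
  · have := run_V a (S :: (d :: us).reverse.map T) (T d) (V :: S :: us.reverse.map T) (by simp)
    have e : List.replicate a V ++ V :: S :: us.reverse.map T =
        List.replicate (a + 1) V ++ S :: us.reverse.map T := by
      simp [List.replicate_succ']
    rw [e] at this
    exact this
  · refine Run.cons _ _ _ _ _ _ _ (BR.las d f x) ?_
    exact run_tail _ _ _ _

theorem run_end (a : ℕ) (x : Con) (f : Fl) (rest : List Con) (c : ℕ) :
    Run (pas V Sig.no) (LA a [] x f rest (c + 1)) (YY (a + 1) (eta f) (x :: rest) c)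
      (pas V Sig.no) := by
  unfold LA YY
  refine Run.append (y := pas S Sig.no) ?_ ?_
  · have := run_V a [S] S [V] (by simp)
    have e : List.replicate a V ++ [V] = List.replicate (a + 1) V := by
      simp [List.replicate_succ']
    rw [e] at this
    simpa using this
  · refine Run.cons _ _ _ _ _ _ _ (BR.lend f x) ?_
    exact run_tail _ _ _ _

theorem run_Vs (a : ℕ) : Run (pas V Sig.no) ((List.replicate a V).map con)
    ((List.replicate a V).map con) (pas V Sig.no) := by
  have := run_V a [] V [] (by simp)
  simpa using this

theorem run_y (a : ℕ) (i j : Fin 8) (h : (j : ℕ) = i + 1) (h6 : (i : ℕ) < 6) (rest : List Con)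
    (c : ℕ) :
    Run (pas V Sig.no) (YY a j rest (c + 1))
      (YY a i (T (if (i : ℕ) = 5 then 1 else 0) :: rest) c)
      (pas V (if (i : ℕ) < 3 then dat 0 else Sig.no)) := by
  unfold YY
  refine Run.append (run_Vs a) ?_
  refine Run.cons _ _ _ _ _ _ _ (BR.yi i j h h6) ?_
  exact run_tail _ _ _ _

theorem run_rr (b : Bool) (ts : List Dig) : Run (rr b) ((ts.map T).map con)
    ((ts.map T).map con) (rr b) := by
  induction ts with
  | nil => exact Run.nil _
  | cons d ts ih => exact Run.cons _ _ _ _ _ _ _ (BR.rrT b d) ih

theorem run_shift (a : ℕ) (b : Bool) (ds : List Dig) (c : ℕ) :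
    Run (pas V Sig.no) (YY a (if b then 7 else 0) (ds.reverse.map T ++ [E]) c)
      (LA a ds E (if b then dt true else sh) [] c) (pas V tog) := by
  unfold YY LA
  simp only [List.map_append, List.append_assoc, List.map_cons]
  refine Run.append (run_Vs a) ?_
  refine Run.cons _ _ _ _ _ _ _ (BR.yend b) ?_
  simp only [List.map_nil, List.nil_append, List.append_assoc]
  refine Run.append (run_rr b _) ?_
  simp only [List.cons_append, List.nil_append]
  refine Run.cons _ _ _ _ _ _ _ (BR.rrE b) ?_
  refine run_hop _ _ _ _ _ ?_
  rw [← List.replicate_succ, List.replicate_succ']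

end Pool.Agent.TH195.SP
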