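import Pool.Agent.TH195.SP.Machine
import Pool.Agent.TH195.SP.Enum

set_option autoImplicit false

namespace Pool.Agent.TH195.SP

open Con Sig Fl Cell Ps Wall Spec

theorem incD_length (ds : List Dig) : ∀ b, (incD b ds).1.length = ds.length := by
  induction ds with
  | nil => intro b; rfl
  | cons d ds ih => intro b; simp [incD, ih]

theorem dl_dt (b : Bool) (d : Dig) :
    dl (dt b) d = (if b then d + 1 else d, dt (b && decide (d = 15)), dat d) := by
  cases b <;> simp [dl]

/-- the digits of a list of blocks -/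
def flat : List AA → List Dig
  | [] => []
  | z :: zs => z.1 :: z.2.1 :: z.2.2 :: flat zs

theorem flat_length (zs : List AA) : (flat zs).length = 3 * zs.length := by
  induction zs with
  | nil => rfl
  | cons z zs ih => simp [flat, ih]; ring

theorem flat_append (zs zs' : List AA) : flat (zs ++ zs') = flat zs ++ flat zs' := by
  induction zs with
  | nil => rfl
  | cons z zs ih => simp [flat, ih]

theorem exists_flat (m : ℕ) : ∀ ds : List Dig, ds.length = 3 * m →
    ∃ zs : List AA, flat zs = ds ∧ zs.length = m := by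
  induction m with
  | zero => intro ds h; exact ⟨[], by simp at h; simp [flat, h], rfl⟩
  | succ m ih =>
    intro ds h
    rcases ds with _ | ⟨d1, _ | ⟨d2, _ | ⟨d3, ds⟩⟩⟩
    · simp at h
    · simp at h; omega
    · simp at h; omega
    · obtain ⟨zs, hz, hl⟩ := ih ds (by simp at h; omega)
      exact ⟨(d1, d2, d3) :: zs, by simp [flat, hz], by simp [hl]⟩

/-- wall at the beginning of a block -/
def Rdy (w : Wall) : Prop := w = V0 ∨ ∃ i, w = Nw i

section

variable {enc : Spec ↪ AA} {U : AA × AA → AA × AA} {c : ℤ → AA}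
  (hU : ∀ x y l r, Rule enc x y l r → U (x, y) = (l, r))
  (hc : ∀ j : ℤ, j ≤ 0 → c j = if j % 2 = 0 then p0 enc else v0 enc)

include hU hc

theorem norm {n : ℕ} {L L' : List Cell} {w w' : Wall} {R : ℕ → AA} {r : Sig} {g : Garb}
    (hI : Inv enc U c n L (enc (wl w)) R) (hR : Run (pas V Sig.no) L L' (pas V r))
    (hw : WR r w g w') (hs : Stat w') :
    Inv enc U c (n + 1) (L' ++ [con V]) (enc (wl w')) (Od U (Ev U R)) :=
  step_normal hU hc hI hR (hU _ _ _ _ (Rule.wall _ _ _ _ hw))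
    (fun z => hU _ _ _ _ (Rule.wr w' z hs))

theorem grow' {n : ℕ} {L L' : List Cell} {a b d : Dig} {R : ℕ → AA}
    (hI : Inv enc U c n L (enc (wl (V2 a b))) R)
    (hR : Run (pas V Sig.no) L L' (pas V (dat d))) :
    Inv enc U c (n + 1) L' (enc (wl (Nw (mk enc (a, b, d))))) (cns (a, b, d) (Ev U R)) :=
  step_grow hU hc hI hR (hU _ _ _ _ (Rule.grow _ _ _))

theorem swallow' {n : ℕ} {L L' : List Cell} {R : ℕ → AA}
    (hI : Inv enc U c n L (enc (wl S0)) R)
    (hR : Run (pas V Sig.no) L L' (pas V Sig.s)) :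
    ∃ b b' R', Inv enc U c (n + 1) (L' ++ [con V, con V]) (enc (wl (U2 b b'))) R' :=
  step_swallow hU hc hI hR (hU _ _ _ _ (Rule.wall _ _ _ _ WR.ss))

theorem data_block {n a : ℕ} {us : List Dig} {x : Con} {b : Bool} {rest : List Con} {c0 : ℕ}
    {w : Wall} {R : ℕ → AA} {d1 d2 d3 : Dig}
    (hI : Inv enc U c n (LA a (d1 :: d2 :: d3 :: us) x (dt b) rest (c0 + 1)) (enc (wl w)) R)
    (hw : Rdy w) :
    ∃ (w' : Wall) (e1 e2 e3 : Dig) (b' : Bool), Rdy w' ∧
      (∀ ds, incD b (d1 :: d2 :: d3 :: ds) =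
        (e1 :: e2 :: e3 :: (incD b' ds).1, (incD b' ds).2)) ∧
      Inv enc U c (n + 3) (LA (a + 3) us (T e3) (dt b') (T e2 :: T e1 :: x :: rest) c0)
        (enc (wl w')) (blk U (d1, d2, d3) R) := by
  have h1 : Inv enc U c (n + 1) (LA (a + 1) (d2 :: d3 :: us) (T (if b then d1 + 1 else d1))
      (dt (b && decide (d1 = 15))) (x :: rest) c0 ++ [con V]) (enc (wl (V1 d1)))
      (Od U (Ev U R)) := by
    have hr := run_LA a d1 (d2 :: d3 :: us) x (dt b) rest c0
    rw [dl_dt] at hr
    rcases hw with rfl | ⟨i, rfl⟩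
    · exact norm hU hc hI hr (WR.v1 d1) trivial
    · exact norm hU hc hI hr (WR.n1 i d1) trivial
  rw [LA_append] at h1
  have hr := run_LA (a + 1) d2 (d3 :: us) (T (if b then d1 + 1 else d1))
      (dt (b && decide (d1 = 15))) (x :: rest) c0
  rw [dl_dt] at hr
  have h2 := norm hU hc h1 hr (WR.v2 d1 d2) trivial
  rw [LA_append] at h2
  have hr := run_LA (a + 1 + 1) d3 us (T (if (b && decide (d1 = 15)) then d2 + 1 else d2))
      (dt ((b && decide (d1 = 15)) && decide (d2 = 15))) (T (if b then d1 + 1 else d1) :: x :: rest)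
      c0
  rw [dl_dt] at hr
  have h3 := grow' hU hc h2 hr
  exact ⟨_, _, _, _, _, Or.inr ⟨_, rfl⟩, fun ds => rfl, h3⟩

theorem data_blocks (zs : List AA) : ∀ {n a : ℕ} {us : List Dig} {x : Con} {b : Bool}
    {rest : List Con} {c0 : ℕ} {w : Wall} {R : ℕ → AA},
    Inv enc U c n (LA a (flat zs ++ us) x (dt b) rest (c0 + zs.length)) (enc (wl w)) R → Rdy w →
    ∃ (w' : Wall) (x' : Con) (rest' : List Con), Rdy w' ∧
      x' :: rest' = (incD b (flat zs)).1.reverse.map T ++ x :: rest ∧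
      Inv enc U c (n + 3 * zs.length) (LA (a + 3 * zs.length) us x' (dt (incD b (flat zs)).2)
        rest' c0) (enc (wl w')) (blks U zs R) := by
  induction zs with
  | nil =>
    intro n a us x b rest c0 w R hI hw
    exact ⟨w, x, rest, hw, by simp [flat, incD], by simpa [flat, incD, blks] using hI⟩
  | cons z zs ih =>
    intro n a us x b rest c0 w R hI hw
    obtain ⟨z1, z2, z3⟩ := z
    rw [List.length_cons, ← add_assoc] at hI
    obtain ⟨w1, e1, e2, e3, b', hw1, hinc, hI1⟩ := data_block hU hc hI hw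
    obtain ⟨w', x', rest', hw', hx', hI'⟩ := ih hI1 hw1
    refine ⟨w', x', rest', hw', ?_, ?_⟩
    · rw [hx']
      simp only [flat]
      rw [hinc]
      simp
    · simp only [flat]
      rw [hinc, List.length_cons, show n + 3 * (zs.length + 1) = n + 3 + 3 * zs.length by ring,
        show a + 3 * (zs.length + 1) = a + 3 + 3 * zs.length by ring]
      exact hI'

/-- one whole data pass -/
theorem data_pass (zs : List AA) {n a c0 : ℕ} {R : ℕ → AA}
    (hI : Inv enc U c n (LA a (flat zs) E (dt true) [] (c0 + 1 + zs.length)) (enc (wl V0)) R) :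
    ∃ n' a' c' R', Inv enc U c n' (LA a' (nextD (flat zs)) E sh [] (c' + 1)) (enc (wl S0)) R' ∧
      (if (incD true (flat zs)).2 then c' = c0 ∧ n' = n + 3 * zs.length + 8 ∧
          a' = a + 3 * zs.length + 1
        else c' = c0 + 1 ∧ n' = n + 3 * zs.length + 2 ∧ a' = a + 3 * zs.length + 1) := by
  have hI0 : Inv enc U c n (LA a (flat zs ++ []) E (dt true) [] (c0 + 1 + zs.length))
    (enc (wl V0)) R := by simpa using hI
  obtain ⟨w1, x1, rest1, hw1, hx1, hI1⟩ := data_blocks hU hc zs hI0 (Or.inl rfl)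
  -- end row
  have h2 : ∃ R', Inv enc U c (n + 3 * zs.length + 1) (YY (a + 3 * zs.length + 1)
      (eta (dt (incD true (flat zs)).2)) (x1 :: rest1) (c0 + 1)) (enc (wl V0)) R' := by
    have hr := run_end (a + 3 * zs.length) x1 (dt (incD true (flat zs)).2) rest1 c0
    rw [← YY_append]
    rcases hw1 with rfl | ⟨i, rfl⟩
    · exact ⟨_, norm hU hc hI1 hr WR.v0 trivial⟩
    · exact ⟨_, norm hU hc hI1 hr (WR.n0 i) trivial⟩
  obtain ⟨R2, h2⟩ := h2
  rw [hx1] at h2
  unfold nextD
  generalize incD true (flat zs) = q at *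
  obtain ⟨ds', b'⟩ := q
  simp only at h2 ⊢
  cases b' with
  | false =>
    simp only [Bool.false_eq_true, if_false]
    have h3 := norm hU hc h2 (run_shift _ false ds' _) WR.vt trivial
    rw [LA_append] at h3
    exact ⟨_, _, c0 + 1, _, h3, rfl, rfl, rfl⟩
  | true =>
    simp only [if_true]
    have e5 := norm hU hc h2 (run_y _ 5 6 rfl (by decide) _ _) WR.v0 trivial
    rw [YY_append] at e5
    have e4 := norm hU hc e5 (run_y _ 4 5 rfl (by decide) _ _) WR.v0 trivial
    rw [YY_append] at e4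
    have e3 := norm hU hc e4 (run_y _ 3 4 rfl (by decide) _ _) WR.v0 trivial
    rw [YY_append] at e3
    have e2 := norm hU hc e3 (run_y _ 2 3 rfl (by decide) _ _) (WR.v1 0) trivial
    rw [YY_append] at e2
    have e1 := norm hU hc e2 (run_y _ 1 2 rfl (by decide) _ _) (WR.v2 0 0) trivial
    rw [YY_append] at e1
    have e0 := grow' hU hc e1 (run_y _ 0 1 rfl (by decide) _ _)
    obtain ⟨R0, e0⟩ : ∃ R0, Inv enc U c (n + 3 * zs.length + 1 + 1 + 1 + 1 + 1 + 1 + 1) _
        (enc (wl (Nw (mk enc (0, 0, 0))))) R0 := ⟨_, e0⟩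
    have e0' : Inv enc U c (n + 3 * zs.length + 1 + 1 + 1 + 1 + 1 + 1 + 1)
        (YY (a + 3 * zs.length + 1) 0
        ((ds' ++ [1, 0, 0, 0, 0, 0]).reverse.map T ++ [E]) c0)
        (enc (wl (Nw (mk enc (0, 0, 0))))) R0 := by
      convert e0 using 2
      simp
    have h3 := norm hU hc e0' (run_shift _ false _ _) (WR.nt _) trivial
    rw [LA_append] at h3
    exact ⟨_, _, c0, _, h3, rfl, rfl, rfl⟩

theorem shrink_block {n a : ℕ} {us : List Dig} {x : Con} {rest : List Con} {c0 : ℕ}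
    {R : ℕ → AA} {d1 d2 d3 : Dig}
    (hI : Inv enc U c n (LA a (d1 :: d2 :: d3 :: us) x sh rest (c0 + 1)) (enc (wl S0)) R) :
    ∃ R', Inv enc U c (n + 3) (LA (a + 3) us (T d3) sh (T d2 :: T d1 :: x :: rest) (c0 + 2))
        (enc (wl S0)) R' := by
  obtain ⟨b, b', R1, h1⟩ := swallow' hU hc hI (run_LA a d1 (d2 :: d3 :: us) x sh rest c0)
  rw [LA_append2] at h1
  have h2 := norm hU hc h1 (run_LA (a + 1) d2 (d3 :: us) _ sh _ _) (WR.u2 b b') trivial
  rw [LA_append] at h2
  have h3 := norm hU hc h2 (run_LA (a + 1 + 1) d3 us _ sh _ _) (WR.u1 b') trivial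
  rw [LA_append] at h3
  exact ⟨_, h3⟩

theorem shrink_blocks (zs : List AA) : ∀ {n a : ℕ} {us : List Dig} {x : Con}
    {rest : List Con} {c0 : ℕ} {R : ℕ → AA},
    Inv enc U c n (LA a (flat zs ++ us) x sh rest (c0 + 1)) (enc (wl S0)) R →
    ∃ (x' : Con) (rest' : List Con) (R' : ℕ → AA),
      x' :: rest' = (flat zs).reverse.map T ++ x :: rest ∧
      Inv enc U c (n + 3 * zs.length) (LA (a + 3 * zs.length) us x' sh
        rest' (c0 + 1 + zs.length)) (enc (wl S0)) R' := by
  induction zs with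
  | nil =>
    intro n a us x rest c0 R hI
    exact ⟨x, rest, R, by simp [flat], by simpa [flat] using hI⟩
  | cons z zs ih =>
    intro n a us x rest c0 R hI
    obtain ⟨z1, z2, z3⟩ := z
    obtain ⟨R1, hI1⟩ := shrink_block hU hc hI
    obtain ⟨x', rest', R', hx', hI'⟩ := ih hI1
    refine ⟨x', rest', R', ?_, ?_⟩
    · rw [hx']; simp [flat]
    · rw [List.length_cons, show n + 3 * (zs.length + 1) = n + 3 + 3 * zs.length by ring,
        show a + 3 * (zs.length + 1) = a + 3 + 3 * zs.length by ring,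
        show c0 + 1 + (zs.length + 1) = c0 + 1 + 1 + zs.length by ring]
      exact hI'

/-- one whole shrinking pass -/
theorem shrink_pass (zs : List AA) {n a c0 : ℕ} {R : ℕ → AA}
    (hI : Inv enc U c n (LA a (flat zs) E sh [] (c0 + 1)) (enc (wl S0)) R) :
    ∃ R', Inv enc U c (n + 3 * zs.length + 2) (LA (a + 3 * zs.length + 1) (flat zs) E (dt true) []
      (c0 + 2 + zs.length)) (enc (wl V0)) R' := by
  have hI0 : Inv enc U c n (LA a (flat zs ++ []) E sh [] (c0 + 1)) (enc (wl S0)) R := by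
    simpa using hI
  obtain ⟨x1, rest1, R1, hx1, hI1⟩ := shrink_blocks hU hc zs hI0
  rw [show c0 + 1 + zs.length = c0 + zs.length + 1 by ring] at hI1
  have h2 := norm hU hc hI1 (run_end (a + 3 * zs.length) x1 sh rest1 _) WR.s0 trivial
  rw [YY_append, hx1] at h2
  have h3 := norm hU hc h2 (run_shift _ true (flat zs) _) WR.st trivial
  rw [LA_append] at h3
  rw [show c0 + 2 + zs.length = c0 + zs.length + 1 + 1 by ring]
  exact ⟨_, h3⟩

/-- one whole cycle; `w` is the position of the wall at the beginning -/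
theorem cycle {n a m c0 : ℕ} {ds : List Dig} {R : ℕ → AA} (hm : ds.length = 6 * m)
    (hI : Inv enc U c n (LA a ds E (dt true) [] (c0 + 1 + 2 * m)) (enc (wl V0)) R)
    (hpos : a + ds.length + (c0 + 1 + 2 * m) + 2 + 1 = n + (4 + m)) :
    ∃ n' a' m' c' R', (nextD ds).length = 6 * m' ∧
      Inv enc U c n' (LA a' (nextD ds) E (dt true) [] (c' + 1 + 2 * m')) (enc (wl V0)) R' ∧
      a' + (nextD ds).length + (c' + 1 + 2 * m') + 2 + 1 = n' + (4 + m') := by
  obtain ⟨zs, rfl, hzl⟩ := exists_flat (2 * m) ds (by omega)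
  have hI0 : Inv enc U c n (LA a (flat zs) E (dt true) [] (c0 + 1 + zs.length))
    (enc (wl V0)) R := by rw [hzl]; exact hI
  obtain ⟨n1, a1, c1, R1, h1, h1'⟩ := data_pass hU hc zs hI0
  have hlen : (nextD (flat zs)).length =
      if (incD true (flat zs)).2 then 6 * (m + 1) else 6 * m := by
    unfold nextD
    split
    · rw [List.length_append, incD_length, hm]; simp; ring
    · rw [incD_length, hm]
  by_cases hb : (incD true (flat zs)).2 = true
  · rw [if_pos hb] at h1' hlen
    obtain ⟨rfl, rfl, rfl⟩ := h1'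
    obtain ⟨zs', hz', hzl'⟩ := exists_flat (2 * (m + 1)) (nextD (flat zs)) (by omega)
    rw [← hz'] at h1
    obtain ⟨R2, h2⟩ := shrink_pass hU hc zs' h1
    rw [hz', show c1 + 2 + zs'.length = c1 + 1 + 1 + 2 * (m + 1) by rw [hzl']] at h2
    exact ⟨_, _, m + 1, c1 + 1, R2, hlen, h2, by omega⟩
  · rw [if_neg hb] at h1' hlen
    obtain ⟨rfl, rfl, rfl⟩ := h1'
    obtain ⟨zs', hz', hzl'⟩ := exists_flat (2 * m) (nextD (flat zs)) (by omega)
    rw [← hz'] at h1
    obtain ⟨R2, h2⟩ := shrink_pass hU hc zs' h1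
    rw [hz', show c0 + 1 + 2 + zs'.length = c0 + 2 + 1 + 2 * m by rw [hzl']] at h2
    exact ⟨_, _, m, c0 + 2, R2, hlen, h2, by omega⟩

end

end Pool.Agent.TH195.SP
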