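import Pool.Agent.TH195.SP.Fields

set_option autoImplicit false

namespace Pool.Agent.TH195.SP

open Con Sig Fl Cell Ps Wall Spec

/-- the passenger `x` crosses the cells `L`, which become `L'`, and leaves as `z` -/
inductive Run : Ps → List Cell → List Cell → Ps → Prop
  | nil (x : Ps) : Run x [] [] x
  | cons (x : Ps) (c l : Cell) (r : Ps) (ys ls : List Cell) (z : Ps) (h : BR x c l r)
      (hr : Run r ys ls z) : Run x (c :: ys) (l :: ls) z

theorem Run.length {x z : Ps} {L L' : List Cell} (h : Run x L L' z) : L'.length = L.length := by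
  induction h with
  | nil => rfl
  | cons _ _ _ _ _ _ _ _ _ ih => simp [ih]

theorem Run.append {x y z : Ps} {L1 L1' L2 L2' : List Cell} (h1 : Run x L1 L1' y)
    (h2 : Run y L2 L2' z) : Run x (L1 ++ L2) (L1' ++ L2') z := by
  induction h1 with
  | nil => simpa using h2
  | cons _ _ _ _ _ _ _ h _ ih => exact Run.cons _ _ _ _ _ _ _ h (ih h2)

theorem run_hop (r : Sig) (cs : List Con) : ∀ (c : Con) (cs' : List Con) (c' : Con),
    c :: cs = cs' ++ [c'] → Run (pas c r) (cs.map con) (cs'.map con) (pas c' r) := by
  induction cs with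
  | nil =>
    intro c cs' c' h
    rcases cs' with _ | ⟨a, cs'⟩
    · simp at h; subst h; exact Run.nil _
    · simp at h
  | cons d ds ih =>
    intro c cs' c' h
    rcases cs' with _ | ⟨a, cs'⟩
    · simp at h
    · simp only [List.cons_append, List.cons.injEq] at h
      obtain ⟨rfl, h⟩ := h
      exact Run.cons _ _ _ _ _ _ _ (BR.hop _ _ _) (ih d cs' c' h)

section

variable (enc : Spec ↪ AA) (U : AA × AA → AA × AA)

/-- passenger and cell of the background -/
abbrev p0 : AA := enc (ps (pas V Sig.no))
abbrev v0 : AA := enc (cell (con V) Garb.no)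

theorem run_rows (hU : ∀ x y l r, Rule enc x y l r → U (x, y) = (l, r))
    (y : ℕ → AA) (g : ℕ → Garb) {x z : Ps} {L L' : List Cell} (h : Run x L L' z) :
    ∀ s : ℕ, xs U (p0 enc) y s = enc (ps x) →
      (∀ t c, L[t]? = some c → y (s + t) = enc (cell c (g (s + t)))) →
      xs U (p0 enc) y (s + L.length) = enc (ps z) ∧
      ∀ t c, L'[t]? = some c → nxt U (p0 enc) y (s + t) = enc (cell c (g (s + t))) := by
  induction h with
  | nil x =>
    intro s hs _
    exact ⟨by simpa using hs, by intro t c h; simp at h⟩
  | cons x c l r ys ls z hb _ ih =>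
    intro s hs hy
    have h0 : y s = enc (cell c (g s)) := by simpa using hy 0 c (by simp)
    have hUs : U (xs U (p0 enc) y s, y s) = (enc (cell l (g s)), enc (ps r)) := by
      rw [hs, h0]
      exact hU _ _ _ _ (Rule.base x c l r (g s) hb)
    have h1 : xs U (p0 enc) y (s + 1) = enc (ps r) := by
      simp only [xs, hUs]
    obtain ⟨ih1, ih2⟩ := ih (s + 1) h1 (by
      intro t c' ht
      have := hy (t + 1) c' (by simpa using ht)
      rw [show s + 1 + t = s + (t + 1) by ring]
      exact this)
    refine ⟨?_, ?_⟩
    · rw [List.length_cons, show s + (ys.length + 1) = s + 1 + ys.length by ring]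
      exact ih1
    · intro t c' ht
      rcases t with _ | t
      · simp at ht
        subst ht
        simp only [nxt, add_zero, hUs]
      · have := ih2 t c' (by simpa using ht)
        rw [show s + (t + 1) = s + 1 + t by ring]
        exact this

variable (c : ℤ → AA)

/-- the rows of the space-time diagram -/
abbrev row (n : ℕ) : ℕ → AA := rows U (p0 enc) (fun t : ℕ => orb U c t ((t : ℤ) + 1)) n

/-- state of row `n`: cells on the left of the wall, wall, symbols on the right of the wall -/
def Inv (n : ℕ) (L : List Cell) (W : AA) (R : ℕ → AA) : Prop :=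
  ∃ g : ℕ → Garb, (∀ t k, L[t]? = some k → row enc U c n t = enc (cell k (g t))) ∧
    row enc U c n L.length = W ∧
    ∀ i : ℕ, orb U c (n + L.length) ((L.length : ℤ) - n + 2 + i) = R i

variable {enc U c} (hU : ∀ x y l r, Rule enc x y l r → U (x, y) = (l, r))
  (hc : ∀ j : ℤ, j ≤ 0 → c j = if j % 2 = 0 then p0 enc else v0 enc)

include hU hc

theorem p0v0 : U (p0 enc, v0 enc) = (v0 enc, p0 enc) :=
  hU _ _ _ _ (Rule.base _ _ _ _ _ (BR.hop V Sig.no V))

theorem fl (n t : ℕ) : orb U c (n + t) ((t : ℤ) - n) = xs U (p0 enc) (row enc U c n) t :=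
  ((fields U (p0 enc) (v0 enc) (p0v0 hU hc) c hc (n + t)).1 n t rfl).1

theorem fr (n t : ℕ) : orb U c (n + t) ((t : ℤ) - n + 1) = row enc U c n t :=
  ((fields U (p0 enc) (v0 enc) (p0v0 hU hc) c hc (n + t)).1 n t rfl).2

omit hU hc in
theorem ev_right {n t : ℕ} {R : ℕ → AA}
    (hR : ∀ i : ℕ, orb U c (n + t) ((t : ℤ) - n + 2 + i) = R i) (i : ℕ) :
    orb U c (n + t + 1) ((t : ℤ) - n + 2 + i) = Ev U R i := by
  simp only [orb, hs, Ev]
  by_cases hi : i % 2 = 0
  · rw [if_pos (by push_cast; omega), if_pos hi, hR i, ← hR (i + 1)]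
    congr 3
    push_cast; ring_nf
  · rw [if_neg (by push_cast; omega), if_neg hi, hR i, ← hR (i - 1)]
    congr 3
    rw [Nat.cast_sub (by omega)]; push_cast; ring_nf

theorem step_normal {n : ℕ} {L L' : List Cell} {W W' : AA} {R : ℕ → AA} {r : Sig} {gg : Garb}
    (hI : Inv enc U c n L W R) (hR : Run (pas V Sig.no) L L' (pas V r))
    (hW : U (enc (ps (pas V r)), W) = (enc (cell (con V) gg), W'))
    (hS : ∀ z, U (W', z) = (W', z)) :
    Inv enc U c (n + 1) (L' ++ [con V]) W' (Od U (Ev U R)) := by
  obtain ⟨g, h1, h2, h3⟩ := hI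
  have hlen := hR.length
  obtain ⟨r1, r2⟩ := run_rows enc U hU (row enc U c n) g hR 0 rfl (by simpa using h1)
  simp only [zero_add] at r1 r2
  have hx1 : xs U (p0 enc) (row enc U c n) (L.length + 1) = W' := by
    simp only [xs, r1, h2, hW]
  refine ⟨Function.update g L.length gg, ?_, ?_, ?_⟩
  · intro t k ht
    rw [List.getElem?_append] at ht
    split at ht
    · next hlt =>
      rw [Function.update_of_ne (by omega)]
      exact r2 t k ht
    · next hge =>
      have h0 : t = L.length := by
        by_contra hne
        rw [List.getElem?_eq_none (by simp; omega)] at ht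
        simp at ht
      subst h0
      rw [show L.length - L'.length = 0 by omega] at ht
      simp at ht
      subst ht
      simp only [Function.update_self, rows, nxt, r1, h2, hW]
  · rw [List.length_append, hlen, List.length_singleton]
    show nxt U (p0 enc) (row enc U c n) (L.length + 1) = W'
    simp only [nxt, hx1, hS]
  · intro i
    rw [List.length_append, hlen, List.length_singleton]
    have e1 := ev_right h3
    have e2 : orb U c (n + L.length + 1) ((L.length : ℤ) - n + 1) = W' := by
      have := fl hU hc n (L.length + 1)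
      rw [hx1] at this
      rw [← this]
      congr 1
      push_cast; ring
    have e3 : ((L.length + 1 : ℕ) : ℤ) - ((n + 1 : ℕ) : ℤ) + 2 + i = (L.length : ℤ) - n + 2 + i := by
      push_cast; ring
    rw [e3, show n + 1 + (L.length + 1) = n + L.length + 1 + 1 by ring]
    rw [orb]
    simp only [hs, Od]
    by_cases hi : i = 0
    · subst hi
      rw [if_neg (by push_cast; omega), if_pos rfl, e1 0]
      have : (L.length : ℤ) - n + 2 + ((0 : ℕ) : ℤ) - 1 = (L.length : ℤ) - n + 1 := by
        push_cast; ring
      rw [this, e2, hS]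
    · by_cases hi2 : i % 2 = 1
      · rw [if_pos (by push_cast; omega), if_neg hi, if_pos hi2, e1 i, ← e1 (i + 1)]
        congr 3
        push_cast; ring_nf
      · rw [if_neg (by push_cast; omega), if_neg hi, if_neg hi2, e1 i, ← e1 (i - 1)]
        congr 3
        rw [Nat.cast_sub (by omega)]; push_cast; ring_nf

theorem step_grow {n : ℕ} {L L' : List Cell} {W W' z : AA} {R : ℕ → AA} {r : Sig}
    (hI : Inv enc U c n L W R) (hR : Run (pas V Sig.no) L L' (pas V r))
    (hW : U (enc (ps (pas V r)), W) = (W', z)) :
    Inv enc U c (n + 1) L' W' (cns z (Ev U R)) := by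
  obtain ⟨g, h1, h2, h3⟩ := hI
  have hlen := hR.length
  obtain ⟨r1, r2⟩ := run_rows enc U hU (row enc U c n) g hR 0 rfl (by simpa using h1)
  simp only [zero_add] at r1 r2
  have hx1 : xs U (p0 enc) (row enc U c n) (L.length + 1) = z := by
    simp only [xs, r1, h2, hW]
  refine ⟨g, ?_, ?_, ?_⟩
  · intro t k ht
    exact r2 t k ht
  · rw [hlen]
    show nxt U (p0 enc) (row enc U c n) L.length = W'
    simp only [nxt, r1, h2, hW]
  · intro i
    rw [hlen]
    have e1 := ev_right h3
    rcases i with _ | i
    · simp only [cns]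
      have := fl hU hc n (L.length + 1)
      rw [hx1] at this
      rw [← this, show n + 1 + L.length = n + (L.length + 1) by ring]
      congr 1
      push_cast; ring
    · simp only [cns]
      rw [← e1 i, show n + 1 + L.length = n + L.length + 1 by ring]
      congr 1
      push_cast; ring

theorem step_swallow {n : ℕ} {L L' : List Cell} {W : AA} {R : ℕ → AA} {r : Sig} {gg : Garb}
    (hI : Inv enc U c n L W R) (hR : Run (pas V Sig.no) L L' (pas V r))
    (hW : U (enc (ps (pas V r)), W) = (enc (cell (con V) gg), enc (wl Sh))) :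
    ∃ b b' R', Inv enc U c (n + 1) (L' ++ [con V, con V]) (enc (wl (U2 b b'))) R' := by
  obtain ⟨g, h1, h2, h3⟩ := hI
  have hlen := hR.length
  obtain ⟨r1, r2⟩ := run_rows enc U hU (row enc U c n) g hR 0 rfl (by simpa using h1)
  simp only [zero_add] at r1 r2
  have hx1 : xs U (p0 enc) (row enc U c n) (L.length + 1) = enc (wl Sh) := by
    simp only [xs, r1, h2, hW]
  obtain ⟨a, b, b', hq⟩ : ∃ a b b', row enc U c n (L.length + 1) = (a, b, b') := ⟨_, _, _, rfl⟩
  have hU2 : U (enc (wl Sh), (a, b, b')) =
      (enc (cell (con V) (Garb.dg a)), enc (wl (U2 b b'))) := hU _ _ _ _ (Rule.sw a b b')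
  have hx2 : xs U (p0 enc) (row enc U c n) (L.length + 2) = enc (wl (U2 b b')) := by
    show (U (xs U (p0 enc) (row enc U c n) (L.length + 1), row enc U c n (L.length + 1))).2 = _
    rw [hx1, hq, hU2]
  refine ⟨b, b', fun i => orb U c (n + 1 + (L' ++ [con V, con V]).length)
    (((L' ++ [con V, con V]).length : ℤ) - ((n + 1 : ℕ) : ℤ) + 2 + i),
    Function.update (Function.update g L.length gg) (L.length + 1) (Garb.dg a), ?_, ?_, ?_⟩
  · intro t k ht
    rw [List.getElem?_append] at ht
    split at ht
    · next hlt =>
      rw [Function.update_of_ne (by omega), Function.update_of_ne (by omega)]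
      exact r2 t k ht
    · next hge =>
      have h0 : t = L.length ∨ t = L.length + 1 := by
        by_contra hne
        rw [List.getElem?_eq_none (by simp; omega)] at ht
        simp at ht
      rcases h0 with h0 | h0
      · subst h0
        rw [show L.length - L'.length = 0 by omega] at ht
        simp at ht
        subst ht
        rw [Function.update_of_ne (by omega)]
        simp only [Function.update_self, rows, nxt, r1, h2, hW]
      · subst h0
        rw [show L.length + 1 - L'.length = 1 by omega] at ht
        simp at ht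
        subst ht
        simp only [Function.update_self]
        show (U (xs U (p0 enc) (row enc U c n) (L.length + 1), row enc U c n (L.length + 1))).1 = _
        rw [hx1, hq, hU2]
  · rw [List.length_append, hlen]
    show (U (xs U (p0 enc) (row enc U c n) (L.length + 2), row enc U c n (L.length + 2))).1 = _
    rw [hx2, hU _ _ _ _ (Rule.wr (U2 b b') _ trivial)]
  · intro i; rfl

end

end Pool.Agent.TH195.SP
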